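import Pool.Agent.TH526.ZT.D

/-!
# Extension of embeddings of number fields

Helper file.
-/

set_option autoImplicit false

namespace Pool.Agent.Y237.HT

open MvPolynomial

/-- An embedding of an algebraic extension `K` of `ℚ` into an algebraically closed field `Ω` which
contains a copy of `L ⊇ K` extends to an embedding of `L`. -/
theorem extend_emb {K L Ω : Type} [Field K] [Field L] [Field Ω] [CharZero K] [CharZero L]
    [CharZero Ω] [IsAlgClosed Ω] [Algebra.IsAlgebraic ℚ K] (ι : K →+* L) (τ₀ : L →+* Ω)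
    (σ : K →+* Ω) : ∃ τ : L →+* Ω, ∀ x, τ (ι x) = σ x := by
  let := ι.toAlgebra
  let := σ.toAlgebra
  obtain ⟨s, hs⟩ := exists_isTranscendenceBasis K L
  have h1 : AlgebraicIndependent ℚ ((↑) : s → L) :=
    hs.1.restrictScalars (algebraMap ℚ K).injective
  have h2 : AlgebraicIndependent ℚ (fun i : s => τ₀ (i : L)) :=
    h1.map' (f := (τ₀.toRatAlgHom)) τ₀.injective
  have h3 : AlgebraicIndependent K (fun i : s => τ₀ (i : L)) := h2.extendScalars K
  let R := Algebra.adjoin K (Set.range ((↑) : s → L))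
  let φ : R →ₐ[K] Ω := (aeval (fun i : s => τ₀ (i : L))).comp hs.1.aevalEquiv.symm.toAlgHom
  have hφ : Function.Injective φ := by
    intro x y hxy
    have h4 : (aeval (fun i : s => τ₀ (i : L))) (hs.1.aevalEquiv.symm x) =
        (aeval (R := K) (fun i : s => τ₀ (i : L))) (hs.1.aevalEquiv.symm y) := hxy
    exact hs.1.aevalEquiv.symm.injective (h3 h4)
  let : Algebra R Ω := φ.toRingHom.toAlgebra
  have : FaithfulSMul R Ω := (faithfulSMul_iff_algebraMap_injective R Ω).2 hφ
  have : FaithfulSMul R L := (faithfulSMul_iff_algebraMap_injective R L).2 Subtype.val_injective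
  have : Algebra.IsAlgebraic R L := hs.isAlgebraic
  let τ : L →ₐ[R] Ω := IsAlgClosed.lift
  refine ⟨τ.toRingHom, fun x => ?_⟩
  have h5 : ι x = algebraMap R L (algebraMap K R x) := rfl
  change τ (ι x) = σ x
  rw [h5, τ.commutes]
  change φ (algebraMap K R x) = σ x
  rw [φ.commutes]
  rfl

end Pool.Agent.Y237.HT
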