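import Pool.Agent.Y237.HT.Den

/-!
# Heights in extensions of number fields

Helper file.
-/

set_option autoImplicit false

namespace Pool.Agent.Y237.HT

open Height NumberField NumberField.InfinitePlace Ideal

theorem prod_inf_eq {K : Type} [Field K] [NumberField K] (g : InfinitePlace K → ℝ) :
    ∏ v : InfinitePlace K, g v ^ v.mult = ∏ φ : K →+* ℂ, g (mk φ) := by
  classical
  rw [← Finset.prod_fiberwise Finset.univ mk (fun φ => g (mk φ))]
  refine Finset.prod_congr rfl fun w _ => ?_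
  have h : ∀ φ ∈ ({φ | mk φ = w} : Finset (K →+* ℂ)), g (mk φ) = g w := by
    intro φ hφ
    rw [(Finset.mem_filter.mp hφ).2]
  rw [Finset.prod_congr rfl h, Finset.prod_const, card_filter_mk_eq]

theorem card_extensions {F K : Type} [Field F] [NumberField F] [Field K] [NumberField K]
    [Algebra F K] (ψ : F →+* ℂ) :
    Nat.card {φ : K →+* ℂ // φ.comp (algebraMap F K) = ψ} = Module.finrank F K := by
  let : Algebra F ℂ := ψ.toAlgebra
  have h1 : Fintype.card (K →ₐ[F] ℂ) = Module.finrank F K := AlgHom.card F K ℂ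
  rw [← h1, ← Nat.card_eq_fintype_card]
  refine Nat.card_congr ⟨fun φ => ⟨φ.1, fun x => ?_⟩, fun φ => ⟨φ.toRingHom, ?_⟩, ?_, ?_⟩
  · exact DFunLike.congr_fun φ.2 x
  · ext x
    exact φ.commutes x
  · intro φ
    rfl
  · intro φ
    rfl

theorem prod_emb_ext {F K : Type} [Field F] [NumberField F] [Field K] [NumberField K]
    [Algebra F K] (h : (F →+* ℂ) → ℝ) :
    ∏ φ : K →+* ℂ, h (φ.comp (algebraMap F K)) = (∏ ψ : F →+* ℂ, h ψ) ^ Module.finrank F K := by
  classical
  rw [← Finset.prod_fiberwise Finset.univ (fun φ : K →+* ℂ => φ.comp (algebraMap F K))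
    (fun φ => h (φ.comp (algebraMap F K))), ← Finset.prod_pow]
  refine Finset.prod_congr rfl fun ψ _ => ?_
  have h1 : ∀ φ ∈ ({φ | φ.comp (algebraMap F K) = ψ} : Finset (K →+* ℂ)),
      h (φ.comp (algebraMap F K)) = h ψ := by
    intro φ hφ
    rw [(Finset.mem_filter.mp hφ).2]
  rw [Finset.prod_congr rfl h1, Finset.prod_const]
  congr 1
  rw [← card_extensions (K := K) ψ, Nat.card_eq_fintype_card, Fintype.card_subtype]

/-- The height of an element in an extension. -/
theorem mulHeight₁_algebraMap {F K : Type} [Field F] [NumberField F] [Field K] [NumberField K]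
    [Algebra F K] (z : F) :
    mulHeight₁ (algebraMap F K z) = mulHeight₁ z ^ Module.finrank F K := by
  obtain ⟨x, y, hy, hxy⟩ := IsFractionRing.div_surjective (A := 𝓞 F) z
  have hy0 : y ≠ 0 := nonZeroDivisors.ne_zero hy
  have hz : z = (x : F) / (y : F) := hxy.symm
  have h1 := mulHeight₁_div_mul x y hy0
  rw [← hz, prod_inf_eq (fun v : InfinitePlace F => max (v (x : F)) (v (y : F)))] at h1
  set x' : 𝓞 K := algebraMap (𝓞 F) (𝓞 K) x with hx'
  set y' : 𝓞 K := algebraMap (𝓞 F) (𝓞 K) y with hy'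
  have hxc : (x' : K) = algebraMap F K x := rfl
  have hyc : (y' : K) = algebraMap F K y := rfl
  have hy0' : y' ≠ 0 := by
    intro h
    apply hy0
    have h2 : algebraMap F K y = 0 := by
      rw [← hyc, h]
      rfl
    have h3 : (y : F) = 0 := by
      rwa [map_eq_zero] at h2
    exact_mod_cast h3
  have h2 := mulHeight₁_div_mul x' y' hy0'
  have hz' : (x' : K) / (y' : K) = algebraMap F K z := by
    rw [hxc, hyc, ← map_div₀, hz]
  rw [hz', prod_inf_eq (fun v : InfinitePlace K => max (v (x' : K)) (v (y' : K)))] at h2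
  have h3 := prod_emb_ext (K := K) (fun ψ : F →+* ℂ => max (mk ψ (x : F)) (mk ψ (y : F)))
  have h4 : (span {x', y'} : Ideal (𝓞 K)) = (span {x, y} : Ideal (𝓞 F)).map
      (algebraMap (𝓞 F) (𝓞 K)) := by
    rw [Ideal.map_span, Set.image_pair]
  have h5 : (span {x', y'} : Ideal (𝓞 K)).absNorm =
      (span {x, y} : Ideal (𝓞 F)).absNorm ^ Module.finrank F K := by
    rw [h4, Ideal.absNorm_algebraMap]
    congr 1
    exact (IsFractionRing.finrank_eq (𝓞 F) F (𝓞 K) K).symm
  have h6 : ∏ φ : K →+* ℂ, max (mk φ (x' : K)) (mk φ (y' : K)) =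
      ∏ φ : K →+* ℂ, (fun ψ : F →+* ℂ => max (mk ψ (x : F)) (mk ψ (y : F)))
        (φ.comp (algebraMap F K)) := by
    refine Finset.prod_congr rfl fun φ _ => ?_
    rfl
  rw [h6, h3, ← h1, h5, mul_pow] at h2
  push_cast at h2
  refine mul_right_cancel₀ ?_ h2
  have h7 : (span {x, y} : Ideal (𝓞 F)) ≠ ⊥ := by
    intro h
    have h8 : y ∈ (span {x, y} : Ideal (𝓞 F)) := Ideal.subset_span (by simp)
    rw [h, Ideal.mem_bot] at h8
    exact hy0 h8
  exact pow_ne_zero _ (by exact_mod_cast absNorm_eq_zero_iff.not.2 h7)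

end Pool.Agent.Y237.HT
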