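import Pool.Agent.Y237.HT.Gauss
import Pool.Agent.Y237.HT.Ext
import Pool.Agent.Y237.HT.Emb

/-!
# The absolute height and good embeddings

Helper file.
-/

set_option autoImplicit false

namespace Pool.Agent.Y237.HT

open Height NumberField Module IntermediateField
open Pool.Agent.TH526.ZT (pabs)

/-- The height in a number field and the absolute height. -/
theorem logHeight₁_eq_abs (K : IntermediateField ℚ ℂ) [NumberField K] (z : K) :
    logHeight₁ z = finrank ℚ K * absLogHeight₁ (z : ℂ) := by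
  have hz : IsIntegral ℚ (z : ℂ) := by
    have h1 : IsIntegral ℚ z := Algebra.IsIntegral.isIntegral z
    exact h1.map (IntermediateField.val K)
  have hle : ℚ⟮(z : ℂ)⟯ ≤ K := by
    rw [IntermediateField.adjoin_simple_le_iff]
    exact z.2
  have : FiniteDimensional ℚ ℚ⟮(z : ℂ)⟯ := adjoin.finiteDimensional hz
  have : NumberField ℚ⟮(z : ℂ)⟯ := {}
  let : Algebra ℚ⟮(z : ℂ)⟯ K := (IntermediateField.inclusion hle).toRingHom.toAlgebra
  have htower : IsScalarTower ℚ ℚ⟮(z : ℂ)⟯ K := IsScalarTower.of_algebraMap_eq fun x => by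
    rfl
  have h1 := mulHeight₁_algebraMap (K := K) (AdjoinSimple.gen ℚ (z : ℂ))
  have h2 : algebraMap ℚ⟮(z : ℂ)⟯ K (AdjoinSimple.gen ℚ (z : ℂ)) = z := by
    apply Subtype.ext
    rfl
  rw [h2] at h1
  have h3 : finrank ℚ ℚ⟮(z : ℂ)⟯ * finrank ℚ⟮(z : ℂ)⟯ K = finrank ℚ K :=
    Module.finrank_mul_finrank ℚ ℚ⟮(z : ℂ)⟯ K
  have h4 : absLogHeight₁ (z : ℂ) = ((finrank ℚ ℚ⟮(z : ℂ)⟯ : ℝ))⁻¹ *
      Real.log (mulHeight₁ (AdjoinSimple.gen ℚ (z : ℂ))) := by
    rw [absLogHeight₁, absMulHeight₁, dif_pos hz, Real.log_rpow (mulHeight₁_pos _)]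
  rw [logHeight₁_eq_log_mulHeight₁, h1, Real.log_pow, h4, ← h3]
  have h5 : ((finrank ℚ ℚ⟮(z : ℂ)⟯ : ℝ)) ≠ 0 := by
    exact_mod_cast (finrank_pos (R := ℚ) (M := ℚ⟮(z : ℂ)⟯)).ne'
  push_cast
  field_simp

theorem exists_field {ι : Type} [Finite ι] (z : ι → ℂ) (hz : ∀ i, IsAlgebraic ℚ (z i)) :
    ∃ K : IntermediateField ℚ ℂ, NumberField K ∧ ∀ i, z i ∈ K := by
  refine ⟨IntermediateField.adjoin ℚ (Set.range z), ?_, fun i =>
    IntermediateField.subset_adjoin ℚ _ ⟨i, rfl⟩⟩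
  have h1 : FiniteDimensional ℚ (IntermediateField.adjoin ℚ (Set.range z)) := by
    have : Finite (Set.range z) := Set.finite_range z
    refine IntermediateField.finiteDimensional_adjoin ?_
    rintro _ ⟨i, rfl⟩
    exact (hz i).isIntegral
  exact {}

theorem abs_nonneg' {z : ℂ} (hz : IsAlgebraic ℚ z) : 0 ≤ absLogHeight₁ z := by
  obtain ⟨K, hK, h⟩ := exists_field (fun _ : Unit => z) (fun _ => hz)
  have h1 := logHeight₁_eq_abs K ⟨z, h ()⟩
  have h2 : (0 : ℝ) ≤ logHeight₁ (⟨z, h ()⟩ : K) := zero_le_logHeight₁ _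
  rw [h1] at h2
  have h3 : (0 : ℝ) < finrank ℚ K := by exact_mod_cast finrank_pos
  exact nonneg_of_mul_nonneg_right h2 h3

theorem abs_mul_le {x y : ℂ} (hx : IsAlgebraic ℚ x) (hy : IsAlgebraic ℚ y) :
    absLogHeight₁ (x * y) ≤ absLogHeight₁ x + absLogHeight₁ y := by
  obtain ⟨K, hK, h⟩ := exists_field ![x, y] (by
    intro i
    fin_cases i
    · exact hx
    · exact hy)
  have h1 := logHeight₁_mul_le (⟨x, h 0⟩ : K) ⟨y, h 1⟩
  rw [logHeight₁_eq_abs, logHeight₁_eq_abs, logHeight₁_eq_abs] at h1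
  have h3 : (0 : ℝ) < finrank ℚ K := by exact_mod_cast finrank_pos
  rw [← mul_add] at h1
  exact le_of_mul_le_mul_left h1 h3

theorem abs_add_le' {x y : ℂ} (hx : IsAlgebraic ℚ x) (hy : IsAlgebraic ℚ y) :
    absLogHeight₁ (x + y) ≤ Real.log 2 + absLogHeight₁ x + absLogHeight₁ y := by
  obtain ⟨K, hK, h⟩ := exists_field ![x, y] (by
    intro i
    fin_cases i
    · exact hx
    · exact hy)
  have h1 := logHeight₁_add_le (⟨x, h 0⟩ : K) ⟨y, h 1⟩
  rw [logHeight₁_eq_abs, logHeight₁_eq_abs, logHeight₁_eq_abs, totalWeight_eq_finrank] at h1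
  have h3 : (0 : ℝ) < finrank ℚ K := by exact_mod_cast finrank_pos
  rw [← mul_add, ← mul_add] at h1
  exact le_of_mul_le_mul_left h1 h3

theorem abs_inv' {x : ℂ} (hx : IsAlgebraic ℚ x) :
    absLogHeight₁ x⁻¹ = absLogHeight₁ x := by
  obtain ⟨K, hK, h⟩ := exists_field (fun _ : Unit => x) (fun _ => hx)
  have h1 := logHeight₁_inv (⟨x, h ()⟩ : K)
  rw [logHeight₁_eq_abs, logHeight₁_eq_abs] at h1
  have h3 : (0 : ℝ) < finrank ℚ K := by exact_mod_cast finrank_pos
  exact mul_left_cancel₀ h3.ne' h1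

theorem abs_pow_le {x : ℂ} (hx : IsAlgebraic ℚ x) (n : ℕ) :
    absLogHeight₁ (x ^ n) ≤ n * absLogHeight₁ x := by
  obtain ⟨K, hK, h⟩ := exists_field (fun _ : Unit => x) (fun _ => hx)
  have h1 := logHeight₁_pow (⟨x, h ()⟩ : K) n
  rw [logHeight₁_eq_abs, logHeight₁_eq_abs] at h1
  have h3 : (0 : ℝ) < finrank ℚ K := by exact_mod_cast finrank_pos
  have h4 : (finrank ℚ K : ℝ) * absLogHeight₁ (x ^ n) =
      (finrank ℚ K : ℝ) * (n * absLogHeight₁ x) := by
    rw [← mul_assoc, mul_comm _ (n : ℝ), mul_assoc]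
    exact h1
  exact (mul_left_cancel₀ h3.ne' h4).le

theorem alg_prod {ι : Type} (s : Finset ι) (f : ι → ℂ) (h : ∀ i ∈ s, IsAlgebraic ℚ (f i)) :
    IsAlgebraic ℚ (∏ i ∈ s, f i) := by
  classical
  induction s using Finset.induction_on with
  | empty =>
    rw [Finset.prod_empty]
    exact isAlgebraic_one
  | insert a s ha ih =>
    rw [Finset.prod_insert ha]
    exact (h a (Finset.mem_insert_self a s)).mul
      (ih fun i hi => h i (Finset.mem_insert_of_mem hi))

theorem alg_sum {ι : Type} (s : Finset ι) (f : ι → ℂ) (h : ∀ i ∈ s, IsAlgebraic ℚ (f i)) :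
    IsAlgebraic ℚ (∑ i ∈ s, f i) := by
  classical
  induction s using Finset.induction_on with
  | empty =>
    rw [Finset.sum_empty]
    exact isAlgebraic_zero
  | insert a s ha ih =>
    rw [Finset.sum_insert ha]
    exact (h a (Finset.mem_insert_self a s)).add
      (ih fun i hi => h i (Finset.mem_insert_of_mem hi))

theorem abs_prod_le {ι : Type} (s : Finset ι) (f : ι → ℂ) (h : ∀ i ∈ s, IsAlgebraic ℚ (f i)) :
    absLogHeight₁ (∏ i ∈ s, f i) ≤ absLogHeight₁ (1 : ℂ) + ∑ i ∈ s, absLogHeight₁ (f i) := by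
  classical
  induction s using Finset.induction_on with
  | empty => simp
  | insert a s ha ih =>
    rw [Finset.prod_insert ha, Finset.sum_insert ha]
    have h1 := ih fun i hi => h i (Finset.mem_insert_of_mem hi)
    have h2 := abs_mul_le (h a (Finset.mem_insert_self a s))
      (alg_prod s f fun i hi => h i (Finset.mem_insert_of_mem hi))
    linarith

theorem abs_sum_le {ι : Type} (s : Finset ι) (f : ι → ℂ) (h : ∀ i ∈ s, IsAlgebraic ℚ (f i)) :
    absLogHeight₁ (∑ i ∈ s, f i) ≤ absLogHeight₁ (0 : ℂ) +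
      ∑ i ∈ s, (Real.log 2 + absLogHeight₁ (f i)) := by
  classical
  induction s using Finset.induction_on with
  | empty => simp
  | insert a s ha ih =>
    rw [Finset.sum_insert ha, Finset.sum_insert ha]
    have h1 := ih fun i hi => h i (Finset.mem_insert_of_mem hi)
    have h2 := abs_add_le' (h a (Finset.mem_insert_self a s))
      (alg_sum s f fun i hi => h i (Finset.mem_insert_of_mem hi))
    linarith

/-- Values of polynomials with algebraic coefficients at points of bounded height. -/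
theorem abs_eval_le {ι : Type} [Fintype ι] (c : MvPolynomial ι ℂ)
    (hc : ∀ m, IsAlgebraic ℚ (c.coeff m)) (B : ℝ) :
    ∃ C : ℝ, ∀ z : ι → ℂ, (∀ i, IsAlgebraic ℚ (z i)) → (∀ i, absLogHeight₁ (z i) ≤ B) →
      IsAlgebraic ℚ (MvPolynomial.eval z c) ∧ absLogHeight₁ (MvPolynomial.eval z c) ≤ C := by
  classical
  refine ⟨absLogHeight₁ (0 : ℂ) + ∑ m ∈ c.support, (Real.log 2 + (absLogHeight₁ (c.coeff m) +
    (absLogHeight₁ (1 : ℂ) + ∑ i, (m i : ℝ) * B))), fun z hz hzB => ?_⟩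
  have h0 : ∀ m ∈ c.support, IsAlgebraic ℚ (c.coeff m * ∏ i, z i ^ m i) := fun m _ =>
    (hc m).mul (alg_prod _ _ fun i _ => (hz i).pow _)
  rw [MvPolynomial.eval_eq']
  refine ⟨alg_sum _ _ h0, (abs_sum_le _ _ h0).trans ?_⟩
  refine add_le_add le_rfl (Finset.sum_le_sum fun m hm => ?_)
  refine add_le_add le_rfl ?_
  refine (abs_mul_le (hc m) (alg_prod _ _ fun i _ => (hz i).pow _)).trans ?_
  refine add_le_add le_rfl ?_
  refine (abs_prod_le _ _ fun i _ => (hz i).pow _).trans ?_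
  refine add_le_add le_rfl (Finset.sum_le_sum fun i _ => ?_)
  exact (abs_pow_le (hz i) _).trans (mul_le_mul_of_nonneg_left (hzB i) (Nat.cast_nonneg _))

/-- **Good embeddings.** -/
theorem exists_good (p : ℕ) [Fact p.Prime] {ι : Type} [Fintype ι] (c : ι → ℂ)
    (hc : ∀ i, IsAlgebraic ℚ (c i)) (hc0 : ∀ i, c i ≠ 0) (B : ℝ)
    (hB : ∀ i, absLogHeight₁ (c i) ≤ B) :
    ∃ τ : ℂ →+* PadicAlgCl p, ∀ i, |Real.log (pabs p τ (c i))| ≤ 2 * (Fintype.card ι * B) := by
  classical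
  obtain ⟨K, hK, hcK⟩ := exists_field c hc
  let c' : ι → K := fun i => ⟨c i, hcK i⟩
  have hc' : ∀ i, c' i ≠ 0 := by
    intro i h
    apply hc0 i
    exact congrArg (fun x : K => (x : ℂ)) h
  have hn : (0 : ℝ) < finrank ℚ K := by exact_mod_cast finrank_pos
  have hcard : Fintype.card (K →ₐ[ℚ] PadicAlgCl p) = finrank ℚ K := AlgHom.card ℚ K _
  -- the sum over the embeddings
  have h1 : ∀ z : K, z ≠ 0 → ∑ σ : K →ₐ[ℚ] PadicAlgCl p, |Real.log ‖σ z‖| ≤
      2 * (finrank ℚ K * absLogHeight₁ (z : ℂ)) := by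
    intro z hz
    have h2 : ∀ w : K, ∑ σ : K →ₐ[ℚ] PadicAlgCl p, Real.log (max 1 ‖σ w‖) ≤
        finrank ℚ K * absLogHeight₁ (w : ℂ) := by
      intro w
      rw [← logHeight₁_eq_abs, logHeight₁_eq_log_mulHeight₁, ← Real.log_prod]
      · exact Real.log_le_log (Finset.prod_pos fun σ _ => lt_max_of_lt_left one_pos)
          (prod_max_le p w)
      · intro σ _
        exact (lt_max_of_lt_left one_pos).ne'
    have h3 : ∀ σ : K →ₐ[ℚ] PadicAlgCl p, |Real.log ‖σ z‖| =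
        Real.log (max 1 ‖σ z‖) + Real.log (max 1 ‖σ z⁻¹‖) := by
      intro σ
      have hpos : 0 < ‖σ z‖ := norm_pos_iff.2 (by
        rw [Ne, map_eq_zero]
        exact hz)
      rw [map_inv₀, norm_inv]
      rcases le_total ‖σ z‖ 1 with h | h
      · rw [max_eq_left h, max_eq_right (one_le_inv₀ hpos |>.2 h), Real.log_one, zero_add,
          Real.log_inv, abs_of_nonpos (Real.log_nonpos hpos.le h)]
      · rw [max_eq_right h, max_eq_left (inv_le_one_of_one_le₀ h), Real.log_one, add_zero,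
          abs_of_nonneg (Real.log_nonneg h)]
    rw [Finset.sum_congr rfl fun σ _ => h3 σ, Finset.sum_add_distrib]
    have h4 := h2 z
    have h5 := h2 z⁻¹
    have h6 : absLogHeight₁ ((z⁻¹ : K) : ℂ) = absLogHeight₁ (z : ℂ) := by
      have h7 : ((z⁻¹ : K) : ℂ) = (z : ℂ)⁻¹ := rfl
      rw [h7]
      refine abs_inv' ?_
      have h8 : IsAlgebraic ℚ z := Algebra.IsAlgebraic.isAlgebraic z
      exact h8.algebraMap
    rw [h6] at h5
    linarith
  have h2 : ∑ σ : K →ₐ[ℚ] PadicAlgCl p, ∑ i, |Real.log ‖σ (c' i)‖| ≤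
      ∑ _σ : K →ₐ[ℚ] PadicAlgCl p, 2 * (Fintype.card ι * B) := by
    rw [Finset.sum_comm, Finset.sum_const, Finset.card_univ, hcard, nsmul_eq_mul]
    calc ∑ i, ∑ σ : K →ₐ[ℚ] PadicAlgCl p, |Real.log ‖σ (c' i)‖| ≤
          ∑ _i : ι, 2 * (finrank ℚ K * B) := by
            refine Finset.sum_le_sum fun i _ => (h1 (c' i) (hc' i)).trans ?_
            exact mul_le_mul_of_nonneg_left (mul_le_mul_of_nonneg_left (hB i) hn.le) zero_le_two
      _ = finrank ℚ K * (2 * (Fintype.card ι * B)) := by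
        rw [Finset.sum_const, Finset.card_univ, nsmul_eq_mul]
        ring
  have hne : (Finset.univ : Finset (K →ₐ[ℚ] PadicAlgCl p)).Nonempty := by
    rw [← Finset.card_pos, Finset.card_univ, hcard]
    exact finrank_pos
  obtain ⟨σ, -, hσ⟩ := Finset.exists_le_of_sum_le hne h2
  obtain ⟨τ, hτ⟩ := extend_emb (K.val.toRingHom) (Classical.choice (H936R2.exists_embedding p))
    σ.toRingHom
  refine ⟨τ, fun i => ?_⟩
  have h3 : pabs p τ (c i) = ‖σ (c' i)‖ := by
    change ‖τ (c i)‖ = _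
    have h4 := hτ (c' i)
    change τ (c i) = σ (c' i) at h4
    rw [h4]
  rw [h3]
  refine le_trans ?_ hσ
  exact Finset.single_le_sum (f := fun i => |Real.log ‖σ (c' i)‖|) (fun i _ => abs_nonneg _)
    (Finset.mem_univ i)

end Pool.Agent.Y237.HT
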