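import Pool.Agent.Y237.HT.Proj

/-!
# Coefficients with respect to the first variables, and the criterion for families

Helper file.
-/

set_option autoImplicit false

namespace Pool.Agent.Y237.HT

open MvPolynomial Pool.Agent.TH526.ZT
open Pool.Agent.Results.MP_b7926e_nt.NoAtypical (coset idealOf dim mem_idealOf)

/-- The vectors of the logarithms of `g` at `t` places are near to a hyperplane. -/
def Bad {k N : ℕ} (t : ℕ) (v : Fin N → AbsoluteValue ℂ ℝ) (g : Fin k → ℂ) (B : ℝ) : Prop :=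
  ∃ T : Finset (Fin N), T.card = t ∧ ∃ φ : Fin k → ℝ, ‖φ‖ = 1 ∧
    ∀ i ∈ T, |∑ j, φ j * Real.log (v i (g j))| ≤ B

variable {r k : ℕ}

lemma nonempty_of_prime {A : Set (Fin k → ℂ)} (hA : (idealOf A).IsPrime) : A.Nonempty := by
  rw [Set.nonempty_iff_ne_empty]
  rintro rfl
  apply hA.ne_top
  rw [Ideal.eq_top_iff_one, mem_idealOf]
  intro x hx
  exact absurd hx (Set.notMem_empty x)

lemma eval_ne_zero_of_supp {f : MvPolynomial (Fin k) ℂ} (hf : f ≠ 0)
    (hs : ∀ α ∈ f.support, ∀ j, α j = 0) (y : Fin k → ℂ) : eval y f ≠ 0 := by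
  obtain ⟨α, hα⟩ := ne_zero_iff.1 hf
  have h0 : ∀ γ ∈ f.support, γ = 0 := fun γ hγ => by
    ext j
    exact hs γ hγ j
  have hα0 : α = 0 := h0 α (mem_support_iff.2 hα)
  rw [eval_eq', Finset.sum_eq_single α]
  · rw [hα0]
    simpa [hα0] using hα
  · intro γ hγ hne
    exact absurd ((h0 γ hγ).trans hα0.symm) hne
  · intro h
    exact absurd (mem_support_iff.2 hα) h

/-- **The criterion for families**, with `m` possibly zero. -/
theorem famB (m : ℕ) (S : {J : Finset (Fin k) // J.card = m} → Finset (Fin k →₀ ℕ))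
    (hS : ∀ J, ∀ α ∈ S J, ∀ j, j ∉ J.1 → α j = 0) :
    ∃ K : ℕ, ∀ N t : ℕ, K * t < N → ∀ B ε : ℝ, ∃ B' : ℝ, 0 ≤ B' ∧
      ∀ v : Fin N → AbsoluteValue ℂ ℝ,
      ∀ f : {J : Finset (Fin k) // J.card = m} → MvPolynomial (Fin k) ℂ,
      (∀ J, f J ≠ 0) → (∀ J, (f J).support ⊆ S J) → (∀ i J, err (v i) (f J) ≤ ε) →
      ∀ g : Fin k → ℂ, (∀ j, g j ≠ 0) →
        ∀ (M : Submodule ℤ (Fin k → ℤ)) (η : Fin k → ℂ), (∀ j, η j ≠ 0) →
          (∀ i j, |Real.log (v i (η j))| ≤ B) → ∀ A ⊆ coset M η,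
            (∀ J, ∀ y ∈ A, eval (fun j => (g j)⁻¹ * y j) (f J) = 0) →
            (idealOf A).IsPrime → (m : Cardinal) ≤ dim A + (Module.finrank ℤ M : Cardinal) →
            Bad t v g B' := by
  classical
  rcases m with _ | d
  · refine ⟨0, fun N t _ B ε => ⟨0, le_rfl, fun v f hf0 hfS hfε g hg M η hη hηB A hAT hAf hA _ => ?_⟩⟩
    obtain ⟨y, hy⟩ := nonempty_of_prime hA
    have h1 := hAf ⟨∅, rfl⟩ y hy
    exact absurd h1 (eval_ne_zero_of_supp (hf0 _) (fun α hα j => hS _ α (hfS _ hα) j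
      (Finset.notMem_empty j)) _)
  · refine ⟨(Fintype.piFinset fun J => S J ×ˢ S J).card, fun N t hN B ε => ?_⟩
    obtain ⟨B', hB', h⟩ := crit d S hS N t hN B ε
    refine ⟨B', hB', fun v f hf0 hfS hfε g hg M η hη hηB A hAT hAf hA hdim => ?_⟩
    refine h v f hf0 hfS hfε g hg M η hη hηB A hAT hAf hA (lt_of_lt_of_le ?_ hdim)
    exact_mod_cast Nat.lt_succ_self d

/-- the two parts of an exponent -/
noncomputable def sp : ((Fin r ⊕ Fin k) →₀ ℕ) ≃ (Fin r →₀ ℕ) × (Fin k →₀ ℕ) :=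
  Finsupp.sumFinsuppEquivProdFinsupp

/-- the coefficient of `w ^ α` -/
noncomputable def cof (α : Fin r →₀ ℕ) (G : MvPolynomial (Fin r ⊕ Fin k) ℂ) :
    MvPolynomial (Fin k) ℂ :=
  ∑ m ∈ G.support, if (sp m).1 = α then monomial (sp m).2 (coeff m G) else 0

theorem coeff_cof (α : Fin r →₀ ℕ) (G : MvPolynomial (Fin r ⊕ Fin k) ℂ) (β : Fin k →₀ ℕ) :
    coeff β (cof α G) = coeff (sp.symm (α, β)) G := by
  classical
  rw [cof, coeff_sum]
  by_cases h : sp.symm (α, β) ∈ G.support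
  · rw [Finset.sum_eq_single (sp.symm (α, β))]
    · rw [Equiv.apply_symm_apply, if_pos rfl, coeff_monomial, if_pos rfl]
    · intro m _ hne
      split_ifs with h1
      · rw [coeff_monomial, if_neg]
        intro h2
        apply hne
        rw [← h1, ← h2, Prod.mk.eta, Equiv.symm_apply_apply]
      · exact coeff_zero _
    · intro h'
      exact absurd h h'
  · rw [notMem_support_iff.1 h]
    refine Finset.sum_eq_zero fun m hm => ?_
    split_ifs with h1
    · rw [coeff_monomial, if_neg]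
      intro h2
      apply h
      rw [← h1, ← h2, Prod.mk.eta, Equiv.symm_apply_apply]
      exact hm
    · exact coeff_zero _

theorem support_cof (α : Fin r →₀ ℕ) (G : MvPolynomial (Fin r ⊕ Fin k) ℂ) (β : Fin k →₀ ℕ)
    (hβ : β ∈ (cof α G).support) : sp.symm (α, β) ∈ G.support := by
  rw [mem_support_iff, coeff_cof] at hβ
  exact mem_support_iff.2 hβ

theorem eval_cof (G : MvPolynomial (Fin r ⊕ Fin k) ℂ) (w : Fin r → ℂ) (x : Fin k → ℂ)
    (T : Finset (Fin r →₀ ℕ)) (hT : ∀ m ∈ G.support, (sp m).1 ∈ T) :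
    eval (Sum.elim w x) G = ∑ α ∈ T, eval x (cof α G) * ∏ i, w i ^ α i := by
  classical
  simp only [cof, map_sum, Finset.sum_mul]
  rw [Finset.sum_comm, eval_eq']
  refine Finset.sum_congr rfl fun m hm => ?_
  rw [Finset.sum_eq_single (sp m).1]
  · rw [if_pos rfl, eval_monomial, Fintype.prod_sum_type, Finsupp.prod_fintype _ _
      (fun _ => pow_zero _)]
    simp only [Sum.elim_inl, Sum.elim_inr]
    have h1 : ∀ i, (sp m).1 i = m (Sum.inl i) := fun i => rfl
    have h2 : ∀ j, (sp m).2 j = m (Sum.inr j) := fun j => rfl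
    simp only [h1, h2]
    ring
  · intro α _ hne
    rw [if_neg (Ne.symm hne), map_zero, zero_mul]
  · intro h
    exact absurd (hT m hm) h

theorem exists_cof_ne_zero {G : MvPolynomial (Fin r ⊕ Fin k) ℂ} (hG : G ≠ 0)
    (T : Finset (Fin r →₀ ℕ)) (hT : ∀ m ∈ G.support, (sp m).1 ∈ T) :
    ∃ α ∈ T, cof α G ≠ 0 := by
  obtain ⟨m, hm⟩ := ne_zero_iff.1 hG
  refine ⟨(sp m).1, hT m (mem_support_iff.2 hm), ne_zero_iff.2 ⟨(sp m).2, ?_⟩⟩
  rw [coeff_cof, Prod.mk.eta, Equiv.symm_apply_apply]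
  exact hm

end Pool.Agent.Y237.HT
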