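import Mathlib

/-!
# Denominator ideals, heights and extensions of number fields

Helper file.
-/

set_option autoImplicit false

namespace Pool.Agent.Y237.HT

open Height NumberField NumberField.InfinitePlace Ideal

variable {K : Type} [Field K] [NumberField K]

/-- The height of a quotient of two algebraic integers. -/
theorem mulHeight₁_div_mul (x y : 𝓞 K) (hy : y ≠ 0) :
    mulHeight₁ ((x : K) / (y : K)) * (span {x, y} : Ideal (𝓞 K)).absNorm =
      ∏ v : InfinitePlace K, (max (v (x : K)) (v (y : K))) ^ v.mult := by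
  have h0 : (![x, y] : Fin 2 → 𝓞 K) ≠ 0 := by
    intro h
    exact hy (congrFun h 1)
  have h0' : (![(x : K), (y : K)] : Fin 2 → K) ≠ 0 := by
    intro h
    have := congrFun h 1
    apply hy
    simpa using this
  have hsup : ∀ (f : Fin 2 → ℝ), ⨆ i, f i = max (f 0) (f 1) := by
    intro f
    apply le_antisymm
    · refine ciSup_le fun i => ?_
      fin_cases i
      · exact le_max_left _ _
      · exact le_max_right _ _
    · exact max_le (Finite.le_ciSup f 0) (Finite.le_ciSup f 1)
  have h1 := absNorm_mul_finprod_finitePlace_eq_one h0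
  have h2 : span (Set.range ![x, y]) = span {x, y} := by
    rw [Matrix.range_cons_cons_empty]
  rw [h2] at h1
  rw [mulHeight₁_div_eq_mulHeight, NumberField.mulHeight_eq h0']
  have h3 : ∀ v : FinitePlace K, ⨆ i, v (![(x : K), (y : K)] i) =
      ⨆ i, v ((![x, y] i : 𝓞 K) : K) := by
    intro v
    congr 1
    funext i
    fin_cases i <;> rfl
  simp only [h3]
  rw [mul_assoc, mul_comm (∏ᶠ v : FinitePlace K, _) _, h1, mul_one]
  refine Finset.prod_congr rfl fun v _ => ?_
  rw [hsup]
  rfl

/-- The denominator ideal of an element of `K` has norm at most the height. -/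
theorem exists_den (z : K) : ∃ I : Ideal (𝓞 K), I ≠ ⊥ ∧
    (∀ a ∈ I, ∃ b : 𝓞 K, (b : K) = z * a) ∧ (I.absNorm : ℝ) ≤ mulHeight₁ z := by
  obtain ⟨x, y, hy, hxy⟩ := IsFractionRing.div_surjective (A := 𝓞 K) z
  have hy0 : y ≠ 0 := nonZeroDivisors.ne_zero hy
  have hy0' : (y : K) ≠ 0 := by
    intro h
    exact hy0 (by exact_mod_cast h)
  have hz : z = (x : K) / (y : K) := hxy.symm
  obtain ⟨I, hI⟩ : span {x, y} ∣ span {y} := by
    rw [Ideal.dvd_iff_le, Ideal.span_singleton_le_iff_mem]
    exact Ideal.subset_span (by simp)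
  have hIn : (span {y} : Ideal (𝓞 K)).absNorm =
      (span {x, y} : Ideal (𝓞 K)).absNorm * I.absNorm := by
    rw [hI, map_mul]
  have hyne : (span {y} : Ideal (𝓞 K)) ≠ ⊥ := by
    rw [Ne, Ideal.span_singleton_eq_bot]
    exact hy0
  refine ⟨I, ?_, ?_, ?_⟩
  · rintro rfl
    rw [Ideal.mul_bot] at hI
    exact hyne hI
  · intro a ha
    have h1 : x * a ∈ span {y} := by
      rw [hI]
      exact Ideal.mul_mem_mul (Ideal.subset_span (by simp)) ha
    obtain ⟨b, hb⟩ := Ideal.mem_span_singleton'.1 h1
    refine ⟨b, ?_⟩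
    have h2 : (b : K) * y = x * a := by exact_mod_cast congrArg (algebraMap (𝓞 K) K) hb
    rw [hz, div_mul_eq_mul_div, eq_div_iff hy0']
    exact h2
  · have h1 := mulHeight₁_div_mul x y hy0
    rw [← hz] at h1
    have h2 : ((span {y} : Ideal (𝓞 K)).absNorm : ℝ) ≤
        ∏ v : InfinitePlace K, (max (v (x : K)) (v (y : K))) ^ v.mult := by
      have h3 : ((span {y} : Ideal (𝓞 K)).absNorm : ℝ) = ∏ v : InfinitePlace K, v (y : K) ^ v.mult := by
        rw [prod_eq_abs_norm, absNorm_span_singleton]
        have h4 := Algebra.coe_norm_int y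
        rw [← h4]
        rw [Nat.cast_natAbs]
        push_cast
        rfl
      rw [h3]
      refine Finset.prod_le_prod (fun v _ => by positivity) fun v _ => ?_
      exact pow_le_pow_left₀ (apply_nonneg v _) (le_max_right _ _) _
    rw [← h1, hIn] at h2
    push_cast at h2
    have h5 : 0 < ((span {x, y} : Ideal (𝓞 K)).absNorm : ℝ) := by
      have h6 : (span {x, y} : Ideal (𝓞 K)).absNorm ≠ 0 := by
        intro h
        rw [h, zero_mul] at hIn
        exact (absNorm_eq_zero_iff.not.2 hyne) hIn
      exact_mod_cast Nat.pos_of_ne_zero h6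
    rw [mul_comm] at h2
    exact le_of_mul_le_mul_right h2 h5

end Pool.Agent.Y237.HT
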