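import Pool.Agent.Y237.HT.Abs

/-!
# Heights of preperiodic points

Helper file.
-/

set_option autoImplicit false

namespace Pool.Agent.Y237.HT

open Height NumberField Module IntermediateField

/-- The height of a tuple is at most the sum of the heights of the entries. -/
theorem logHeight_le_sum {K : Type} [Field K] [NumberField K] {ι : Type} [Fintype ι]
    (c : ι → K) : logHeight c ≤ ∑ i, logHeight₁ (c i) := by
  classical
  have h1 := logHeight_fun_prod_eq (x := fun (a : ι) => ![c a, 1]) (fun a h => by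
    have := congrFun h 1
    simp at this)
  have h2 : ∀ a : ι, logHeight ![c a, 1] = logHeight₁ (c a) := fun a =>
    (logHeight₁_eq_logHeight (c a)).symm
  simp only [h2] at h1
  rw [← h1]
  have h3 := logHeight_comp_le (fun i : ι => (fun a : ι => if a = i then (0 : Fin 2) else 1))
    (fun I : ι → Fin 2 => ∏ a, (![c a, 1] : Fin 2 → K) (I a))
  refine le_trans (le_of_eq ?_) h3
  congr 1
  funext i
  rw [Function.comp_apply, Finset.prod_eq_single i]
  · simp
  · intro b _ hb
    simp [hb]
  · intro h
    exact absurd (Finset.mem_univ i) h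

/-- The height of a tuple of monomials of degree `M`. -/
theorem logHeight_monomials {K : Type} [Field K] [NumberField K] {ι : Type} [Fintype ι]
    (x : ι → K) (M : ℕ) (T : Finset (ι →₀ ℕ)) (hT : ∀ s ∈ T, s.degree = M) :
    logHeight (fun s : T => ∏ i, x i ^ (s : ι →₀ ℕ) i) ≤ M * logHeight x := by
  classical
  rcases eq_or_ne x 0 with rfl | hx
  · rw [logHeight_zero, mul_zero]
    by_cases hM : M = 0
    · have h1 : ∀ s ∈ T, s = 0 := fun s hs => by
        have := hT s hs
        rw [hM] at this
        exact (Finsupp.degree_eq_zero_iff s).1 this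
      have : Subsingleton T := ⟨fun a b => Subtype.ext ((h1 a a.2).trans (h1 b b.2).symm)⟩
      rw [logHeight_eq_zero_of_subsingleton]
    · have h1 : (fun s : T => ∏ i, (0 : ι → K) i ^ (s : ι →₀ ℕ) i) = 0 := by
        funext s
        have h2 : (s : ι →₀ ℕ) ≠ 0 := by
          intro h
          have := hT s s.2
          rw [h, map_zero] at this
          exact hM this.symm
        obtain ⟨i, hi⟩ := Finsupp.ne_iff.1 h2
        exact Finset.prod_eq_zero (Finset.mem_univ i) (by simpa using hi)
      rw [h1, logHeight_zero]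
  have h1 := logHeight_fun_prod_eq (x := fun (_ : Fin M) => x) (fun _ => hx)
  rw [Finset.sum_const, Finset.card_univ, Fintype.card_fin, nsmul_eq_mul] at h1
  rw [← h1]
  have h2 : ∀ s : T, ∃ I : Fin M → ι, ∏ a, x (I a) = ∏ i, x i ^ (s : ι →₀ ℕ) i := by
    intro s
    set l := (Finsupp.toMultiset (s : ι →₀ ℕ)).toList with hl
    have hlen : l.length = M := by
      rw [hl, Multiset.length_toList, Finsupp.card_toMultiset]
      rw [← hT s s.2, Finsupp.degree_apply]
      rfl
    refine ⟨fun a => l.get (a.cast hlen.symm), ?_⟩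
    have h3 : ∏ a : Fin M, x (l.get (a.cast hlen.symm)) = ∏ a : Fin l.length, x (l.get a) := by
      subst hlen
      rfl
    rw [h3, ← List.prod_ofFn]
    have h4 : (List.ofFn fun a => x (l.get a)) = l.map x := by
      rw [← Function.comp_def, ← List.map_ofFn, List.ofFn_get]
    rw [h4]
    have h5 : (l.map x).prod = (((Finsupp.toMultiset (s : ι →₀ ℕ))).map x).prod := by
      conv_rhs => rw [← Multiset.coe_toList (Finsupp.toMultiset (s : ι →₀ ℕ))]
      rw [Multiset.map_coe, Multiset.prod_coe]
    rw [h5, Finsupp.toMultiset_map, Finsupp.prod_toMultiset, Finsupp.prod_mapDomain_index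
      (fun _ => pow_zero _) (fun _ _ _ => pow_add _ _ _)]
    rw [Finsupp.prod_fintype _ _ (fun _ => pow_zero _)]
  choose I hI using h2
  have h3 := logHeight_comp_le I (fun J : Fin M → ι => ∏ a, x (J a))
  refine le_trans (le_of_eq ?_) h3
  congr 1
  funext s
  exact (hI s).symm

/-- **Lower bound for the height of an image**, uniform in the number field. -/
theorem height_ge {ι : Type} [Fintype ι] {M q : ℕ} (Q : ι × ι → MvPolynomial ι ℂ)
    (hQ : ∀ a, (Q a).IsHomogeneous M) :
    ∃ C : ℝ, ∀ (K : IntermediateField ℚ ℂ) [NumberField K], (∀ a m, (Q a).coeff m ∈ K) →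
      ∀ x y : ι → K, (∀ k, ∑ j, MvPolynomial.eval (fun i => (x i : ℂ)) (Q (k, j)) * (y j : ℂ) =
        (x k : ℂ) ^ (M + q)) → q * logHeight x ≤ finrank ℚ K * C + logHeight y := by
  classical
  let T : Finset (ι →₀ ℕ) := Finset.univ.biUnion fun a => (Q a).support
  have hT : ∀ s ∈ T, s.degree = M := by
    intro s hs
    obtain ⟨a, -, ha⟩ := Finset.mem_biUnion.1 hs
    have h1 := hQ a (MvPolynomial.mem_support_iff.1 ha)
    rw [← h1, Finsupp.degree_eq_weight_one]
    rfl
  refine ⟨Real.log (Nat.card ι) + Real.log (Nat.card T) +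
    ∑ a : (ι × ι) × T, absLogHeight₁ ((Q a.1).coeff (a.2 : ι →₀ ℕ)), ?_⟩
  intro K _ hK x y hxy
  let A : (ι × ι) × T → K := fun a => ⟨(Q a.1).coeff (a.2 : ι →₀ ℕ), hK _ _⟩
  let xm : T → K := fun s => ∏ i, x i ^ (s : ι →₀ ℕ) i
  let w : ι × ι → K := fun a => ∑ s, A (a, s) * xm s
  have hw : ∀ a, ((w a : K) : ℂ) = MvPolynomial.eval (fun i => (x i : ℂ)) (Q a) := by
    intro a
    rw [MvPolynomial.eval_eq']
    have h1 : ((w a : K) : ℂ) = ∑ s : T, (Q a).coeff (s : ι →₀ ℕ) *
        ∏ i, (x i : ℂ) ^ (s : ι →₀ ℕ) i := by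
      simp only [w, A, xm]
      push_cast
      rfl
    rw [h1, Finset.sum_coe_sort T (fun s => (Q a).coeff s * ∏ i, (x i : ℂ) ^ s i)]
    symm
    apply Finset.sum_subset
    · intro s hs
      exact Finset.mem_biUnion.2 ⟨a, Finset.mem_univ a, hs⟩
    · intro s _ hs
      rw [MvPolynomial.notMem_support_iff.1 hs, zero_mul]
  have h1 : logHeight w ≤ totalWeight K * Real.log (Nat.card T) + logHeight A + logHeight xm :=
    logHeight_linearMap_apply_le A xm
  have h2 : logHeight (fun k => ∑ j, w (k, j) * y j) ≤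
      totalWeight K * Real.log (Nat.card ι) + logHeight w + logHeight y :=
    logHeight_linearMap_apply_le w y
  have h3 : (fun k => ∑ j, w (k, j) * y j) = x ^ (M + q) := by
    funext k
    apply Subtype.ext
    rw [Pi.pow_apply]
    have h4 := hxy k
    simp only [← hw] at h4
    push_cast
    exact h4
  rw [h3, logHeight_pow] at h2
  have h4 : logHeight A ≤ finrank ℚ K *
      ∑ a : (ι × ι) × T, absLogHeight₁ ((Q a.1).coeff (a.2 : ι →₀ ℕ)) := by
    refine (logHeight_le_sum A).trans (le_of_eq ?_)
    rw [Finset.mul_sum]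
    refine Finset.sum_congr rfl fun a _ => ?_
    rw [logHeight₁_eq_abs]
  have h5 := logHeight_monomials x M T hT
  rw [totalWeight_eq_finrank] at h1 h2
  push_cast at h2
  have h6 : logHeight xm ≤ M * logHeight x := h5
  nlinarith [h1, h2, h4, h6]

end Pool.Agent.Y237.HT
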