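import Mathlib

/-!
# Uniform elimination of variables in families

Helper file. From Chevalley's theorem: if `V` is a family of affine algebraic sets `V_z` with
parameters `z` over a field `𝕜`, then there is a finite set of polynomials `F (z; s)` over `𝕜`, such
that for all parameters `z` for which the coordinates `s` satisfy some nontrivial relation on `V_z`
they satisfy a nontrivial relation `F (z; s) = 0` from this finite set.
-/

set_option autoImplicit false

namespace Pool.Agent.Y237.HT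

open MvPolynomial PrimeSpectrum Topology

variable {𝕜 Ω Y X S : Type} [Field 𝕜] [Field Ω] [IsAlgClosed Ω] [Algebra 𝕜 Ω]
  [Finite Y] [Finite X] [Finite S]

/-- the polynomial in the variables `s`, for the parameter `z` -/
noncomputable def spz (z : Y → Ω) : MvPolynomial (Y ⊕ S) 𝕜 →ₐ[𝕜] MvPolynomial S Ω :=
  aeval (Sum.elim (fun y => C (z y)) MvPolynomial.X)

omit [IsAlgClosed Ω] [Finite Y] [Finite S] in
theorem eval_spz (z : Y → Ω) (s : S → Ω) (F : MvPolynomial (Y ⊕ S) 𝕜) :
    eval s (spz z F) = aeval (Sum.elim z s) F := by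
  have h : ((aeval s : MvPolynomial S Ω →ₐ[Ω] Ω).restrictScalars 𝕜).comp (spz z) =
      aeval (Sum.elim z s) := by
    ext i
    rcases i with y | i <;> simp [spz]
  have := DFunLike.congr_fun h F
  rw [← this]
  simp [aeval_eq_eval]

/-- the point of the spectrum -/
noncomputable def ptS {I : Type} (x : I → Ω) : PrimeSpectrum (MvPolynomial I 𝕜) :=
  ⟨RingHom.ker (aeval x : MvPolynomial I 𝕜 →ₐ[𝕜] Ω).toRingHom, RingHom.ker_isPrime _⟩

omit [IsAlgClosed Ω] in
theorem mem_ptS {I : Type} (x : I → Ω) (F : MvPolynomial I 𝕜) :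
    F ∈ (ptS (𝕜 := 𝕜) x).asIdeal ↔ aeval x F = 0 := Iff.rfl

omit [Finite Y] [Finite S] in
/-- Points of the image of a closed set lift to points of the closed set. -/
theorem exists_lift (j : S → X) (ℋ : Set (MvPolynomial (Y ⊕ X) 𝕜)) (z : Y → Ω) (s : S → Ω)
    (h : ptS (𝕜 := 𝕜) (Sum.elim z s) ∈
      comap (rename (Sum.map id j) : MvPolynomial (Y ⊕ S) 𝕜 →ₐ[𝕜] _).toRingHom ''
        zeroLocus ℋ) :
    ∃ x : X → Ω, (∀ H ∈ ℋ, aeval (Sum.elim z x) H = 0) ∧ ∀ i, x (j i) = s i := by
  obtain ⟨Q, hQ, hQP⟩ := h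
  set P := ptS (𝕜 := 𝕜) (Sum.elim z s) with hP
  let R := MvPolynomial (Y ⊕ S) 𝕜
  let R' := MvPolynomial (Y ⊕ X) 𝕜
  let ren : R →ₐ[𝕜] R' := rename (Sum.map id j)
  have hmem : ∀ F : R, F ∈ P.asIdeal ↔ ren F ∈ Q.asIdeal := by
    intro F
    rw [← hQP]
    rfl
  let κ := FractionRing (R ⧸ P.asIdeal)
  let κ' := FractionRing (R' ⧸ Q.asIdeal)
  -- the two embeddings
  let a₀ : (R ⧸ P.asIdeal) →+* Ω := Ideal.Quotient.lift P.asIdeal
    (aeval (Sum.elim z s) : R →ₐ[𝕜] Ω).toRingHom (fun F hF => hF)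
  have ha₀ : Function.Injective a₀ := by
    rw [injective_iff_map_eq_zero]
    intro F hF
    obtain ⟨F, rfl⟩ := Ideal.Quotient.mk_surjective F
    exact Ideal.Quotient.eq_zero_iff_mem.2 hF
  have hκ' : ∀ F : R', algebraMap (R' ⧸ Q.asIdeal) κ' (Ideal.Quotient.mk Q.asIdeal F) = 0 ↔
      F ∈ Q.asIdeal := by
    intro F
    rw [map_eq_zero_iff _ (IsFractionRing.injective (R' ⧸ Q.asIdeal) κ'),
      Ideal.Quotient.eq_zero_iff_mem]
  let b₀ : (R ⧸ P.asIdeal) →+* κ' := Ideal.Quotient.lift P.asIdeal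
    (((algebraMap (R' ⧸ Q.asIdeal) κ').comp (Ideal.Quotient.mk Q.asIdeal)).comp ren.toRingHom)
    (fun F hF => (hκ' _).2 ((hmem F).1 hF))
  have hb₀ : Function.Injective b₀ := by
    rw [injective_iff_map_eq_zero]
    intro F hF
    obtain ⟨F, rfl⟩ := Ideal.Quotient.mk_surjective F
    exact Ideal.Quotient.eq_zero_iff_mem.2 ((hmem F).2 ((hκ' _).1 hF))
  let a : κ →+* Ω := IsFractionRing.lift ha₀
  let b : κ →+* κ' := IsFractionRing.lift hb₀
  let c : R →+* κ := (algebraMap (R ⧸ P.asIdeal) κ).comp (Ideal.Quotient.mk P.asIdeal)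
  have hac : ∀ F, a (c F) = aeval (Sum.elim z s) F := by
    intro F
    exact IsFractionRing.lift_algebraMap ha₀ _
  have hbc : ∀ F, b (c F) = algebraMap (R' ⧸ Q.asIdeal) κ' (Ideal.Quotient.mk _ (ren F)) := by
    intro F
    exact IsFractionRing.lift_algebraMap hb₀ _
  let : Algebra κ Ω := a.toAlgebra
  -- the ideal of the fibre
  let e : R' →+* MvPolynomial X κ := eval₂Hom (C.comp (c.comp C))
    (Sum.elim (fun y => C (c (MvPolynomial.X (Sum.inl y)))) MvPolynomial.X)
  let J : Ideal (MvPolynomial X κ) := Ideal.span (e '' ℋ ∪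
    Set.range fun i : S => MvPolynomial.X (j i) - C (c (MvPolynomial.X (Sum.inr i))))
  let ξ : X → κ' := fun i => algebraMap (R' ⧸ Q.asIdeal) κ'
    (Ideal.Quotient.mk _ (MvPolynomial.X (Sum.inr i)))
  have heξ : ∀ F : R', eval₂ b ξ (e F) = algebraMap (R' ⧸ Q.asIdeal) κ'
      (Ideal.Quotient.mk _ F) := by
    intro F
    have h1 : (eval₂Hom b ξ).comp e = (algebraMap (R' ⧸ Q.asIdeal) κ').comp
        (Ideal.Quotient.mk Q.asIdeal) := by
      apply MvPolynomial.ringHom_ext
      · intro t
        simp only [RingHom.comp_apply, e, eval₂Hom_C]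
        rw [hbc]
        congr 2
        exact algHom_C ren t
      · intro i
        rcases i with y | i
        · simp only [RingHom.comp_apply, e, eval₂Hom_X', Sum.elim_inl]
          rw [coe_eval₂Hom, eval₂_C, hbc]
          congr 2
          exact rename_X (Sum.map id j) (Sum.inl y)
        · simp only [RingHom.comp_apply, e, eval₂Hom_X', Sum.elim_inr]
          rfl
    exact DFunLike.congr_fun h1 F
  have hJ : J ≠ ⊤ := by
    intro htop
    have h1 : ∀ g ∈ J, eval₂Hom b ξ g = 0 := by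
      intro g hg
      have h2 : J ≤ RingHom.ker (eval₂Hom b ξ) := by
        rw [Ideal.span_le]
        rintro _ (⟨H, hH, rfl⟩ | ⟨i, rfl⟩)
        · change eval₂Hom b ξ (e H) = 0
          rw [coe_eval₂Hom, heξ, Ideal.Quotient.eq_zero_iff_mem.2 (hQ hH), map_zero]
        · change eval₂Hom b ξ _ = 0
          rw [map_sub, eval₂Hom_X', eval₂Hom_C, hbc, sub_eq_zero]
          have h4 : ren (MvPolynomial.X (Sum.inr i)) = MvPolynomial.X (Sum.inr (j i)) :=
            rename_X (Sum.map id j) (Sum.inr i)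
          rw [h4]
      exact h2 hg
    have h3 := h1 1 (by rw [htop]; exact Submodule.mem_top)
    rw [map_one] at h3
    exact one_ne_zero h3
  -- the Nullstellensatz
  have hne : (MvPolynomial.zeroLocus Ω J).Nonempty := by
    by_contra hcon
    rw [Set.not_nonempty_iff_eq_empty] at hcon
    have h1 := MvPolynomial.vanishingIdeal_zeroLocus_eq_radical (K := Ω) J
    rw [hcon, MvPolynomial.vanishingIdeal_empty] at h1
    exact hJ (Ideal.radical_eq_top.1 h1.symm)
  obtain ⟨x, hx⟩ := hne
  have hex : ∀ F : R', aeval x (e F) = aeval (Sum.elim z x) F := by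
    intro F
    have h1 : (aeval x : MvPolynomial X κ →ₐ[κ] Ω).toRingHom.comp e =
        (aeval (Sum.elim z x) : R' →ₐ[𝕜] Ω).toRingHom := by
      apply MvPolynomial.ringHom_ext
      · intro t
        simp only [RingHom.comp_apply, e, eval₂Hom_C]
        change aeval x (C (c (C t)) : MvPolynomial X κ) = aeval (Sum.elim z x) (C t)
        rw [aeval_C, aeval_C]
        change a (c (C t)) = _
        rw [hac, aeval_C]
      · intro i
        rcases i with y | i
        · simp only [RingHom.comp_apply, e, eval₂Hom_X', Sum.elim_inl]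
          change aeval x (C (c (MvPolynomial.X (Sum.inl y))) : MvPolynomial X κ) =
            aeval (Sum.elim z x) (MvPolynomial.X (Sum.inl y))
          rw [aeval_C, aeval_X]
          change a (c _) = _
          rw [hac, aeval_X]
          rfl
        · simp only [RingHom.comp_apply, e, eval₂Hom_X', Sum.elim_inr]
          change aeval x (MvPolynomial.X i : MvPolynomial X κ) =
            aeval (Sum.elim z x) (MvPolynomial.X (Sum.inr i))
          rw [aeval_X, aeval_X]
          rfl
    exact DFunLike.congr_fun h1 F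
  refine ⟨x, fun H hH => ?_, fun i => ?_⟩
  · rw [← hex]
    exact hx _ (Ideal.subset_span (Or.inl ⟨H, hH, rfl⟩))
  · have h1 := hx _ (Ideal.subset_span (Or.inr ⟨i, rfl⟩))
    rw [map_sub, aeval_X, aeval_C, sub_eq_zero] at h1
    rw [h1]
    change a (c _) = _
    rw [hac, aeval_X]
    rfl

/-- **Uniform elimination.** -/
theorem elim (j : S → X) (ℋ : Finset (MvPolynomial (Y ⊕ X) 𝕜)) :
    ∃ 𝓕 : Finset (MvPolynomial (Y ⊕ S) 𝕜), ∀ z : Y → Ω,
      (∃ G : MvPolynomial S Ω, G ≠ 0 ∧ ∀ x : X → Ω,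
        (∀ H ∈ ℋ, aeval (Sum.elim z x) H = 0) → eval (fun i => x (j i)) G = 0) →
      ∃ F ∈ 𝓕, spz z F ≠ 0 ∧ ∀ x : X → Ω,
        (∀ H ∈ ℋ, aeval (Sum.elim z x) H = 0) → eval (fun i => x (j i)) (spz z F) = 0 := by
  classical
  let ren : MvPolynomial (Y ⊕ S) 𝕜 →ₐ[𝕜] MvPolynomial (Y ⊕ X) 𝕜 := rename (Sum.map id j)
  have hfp : ren.toRingHom.FinitePresentation := by
    refine (RingHom.FinitePresentation.of_finiteType (f := ren.toRingHom)).1 ?_
    have h1 : (algebraMap 𝕜 (MvPolynomial (Y ⊕ X) 𝕜)).FiniteType :=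
      RingHom.finiteType_algebraMap.2 inferInstance
    have h2 : (ren.toRingHom.comp (algebraMap 𝕜 (MvPolynomial (Y ⊕ S) 𝕜))).FiniteType := by
      have h3 : ren.toRingHom.comp (algebraMap 𝕜 (MvPolynomial (Y ⊕ S) 𝕜)) =
          algebraMap 𝕜 (MvPolynomial (Y ⊕ X) 𝕜) := ren.comp_algebraMap
      rw [h3]
      exact h1
    exact h2.of_comp_finiteType
  have hcl : IsConstructible (PrimeSpectrum.zeroLocus (ℋ : Set (MvPolynomial (Y ⊕ X) 𝕜))) := by
    rw [← isConstructible_compl]
    exact (isRetrocompact_zeroLocus_compl ℋ.finite_toSet).isConstructible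
      (isClosed_zeroLocus _).isOpen_compl
  obtain ⟨T, hT⟩ := exists_constructibleSetData_iff.2 (isConstructible_comap_image hfp hcl)
  -- the polynomials
  let Gs : Finset (MvPolynomial (Y ⊕ S) 𝕜) := T.biUnion fun C => Finset.univ.image C.g
  refine ⟨Gs.powerset.image fun U => ∏ g ∈ U, g, fun z hz => ?_⟩
  obtain ⟨G, hG0, hG⟩ := hz
  let U : Finset (MvPolynomial (Y ⊕ S) 𝕜) := Gs.filter fun g => spz z g ≠ 0
  refine ⟨∏ g ∈ U, g, Finset.mem_image.2 ⟨U, Finset.mem_powerset.2 (Finset.filter_subset _ _), rfl⟩,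
    ?_, fun x hx => ?_⟩
  · rw [map_prod]
    exact Finset.prod_ne_zero_iff.2 fun g hg => (Finset.mem_filter.1 hg).2
  · -- the point of the spectrum
    have h1 : ptS (𝕜 := 𝕜) (Sum.elim z fun i => x (j i)) ∈ T.toSet := by
      rw [hT]
      refine ⟨ptS (Sum.elim z x), ?_, ?_⟩
      · intro H hH
        exact hx H hH
      · ext F
        change aeval (Sum.elim z x) (ren F) = 0 ↔ aeval (Sum.elim z fun i => x (j i)) F = 0
        rw [aeval_rename]
        have h2 : Sum.elim z x ∘ Sum.map id j = Sum.elim z fun i => x (j i) := by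
          funext i
          rcases i with i | i <;> rfl
        rw [h2]
    obtain ⟨C, hC, hpC⟩ := Set.mem_iUnion₂.1 h1
    obtain ⟨hg, hf⟩ := hpC
    have hg' : ∀ i, aeval (Sum.elim z fun i => x (j i)) (C.g i) = 0 := fun i => hg ⟨i, rfl⟩
    have hf' : aeval (Sum.elim z fun i => x (j i)) C.f ≠ 0 := by
      intro h
      apply hf
      rintro _ rfl
      exact h
    -- one of the `g` is not identically zero
    have h2 : ∃ i, spz z (C.g i) ≠ 0 := by
      by_contra hcon
      push Not at hcon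
      have h3 : G * spz z C.f = 0 := by
        apply MvPolynomial.funext
        intro s
        rw [map_mul, map_zero]
        by_cases h4 : aeval (Sum.elim z s) C.f = 0
        · rw [eval_spz, h4, mul_zero]
        · have h5 : ptS (𝕜 := 𝕜) (Sum.elim z s) ∈ T.toSet := by
            refine Set.mem_iUnion₂.2 ⟨C, hC, ?_, ?_⟩
            · rintro _ ⟨i, rfl⟩
              change aeval (Sum.elim z s) (C.g i) = 0
              rw [← eval_spz, hcon i, map_zero]
            · intro h6
              exact h4 (h6 rfl)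
          rw [hT] at h5
          obtain ⟨x', hx', hxs⟩ := exists_lift j _ z s h5
          have h6 := hG x' hx'
          have h7 : (fun i => x' (j i)) = s := funext hxs
          rw [h7] at h6
          rw [h6, zero_mul]
      rcases mul_eq_zero.1 h3 with h4 | h4
      · exact hG0 h4
      · apply hf'
        rw [← eval_spz, h4, map_zero]
    obtain ⟨i, hi⟩ := h2
    rw [map_prod, map_prod]
    refine Finset.prod_eq_zero (i := C.g i) ?_ ?_
    · refine Finset.mem_filter.2 ⟨Finset.mem_biUnion.2 ⟨C, hC, ?_⟩, hi⟩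
      exact Finset.mem_image_of_mem _ (Finset.mem_univ i)
    · rw [eval_spz]
      exact hg' i

end Pool.Agent.Y237.HT
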