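import Pool.Agent.Y237.HT.Main
import Pool.Agent.Y237.HT.Elim

/-!
# The main theorem for arbitrary algebraic sets

Helper file.
-/

set_option autoImplicit false

namespace Pool.Agent.Y237.HT

open MvPolynomial NumberField
open Pool.Agent.Results.MP_b7926e_nt.NoAtypical (coset idealOf dim mem_idealOf)

variable {ι : Type} {r k : ℕ}

/-- the fibre over `z` -/
def fib (ℋ : Finset (MvPolynomial (ι ⊕ (Fin r ⊕ Fin k)) ℂ)) (z : ι → ℂ) :
    Set ((Fin r → ℂ) × (Fin k → ℂ)) :=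
  {u | (∀ j, u.2 j ≠ 0) ∧ ∀ H ∈ ℋ, eval (Sum.elim z (Sum.elim u.1 u.2)) H = 0}

/-- the dimension of a fibre is at most `d` -/
def DimFib (d : ℕ) (V : Set ((Fin r → ℂ) × (Fin k → ℂ))) : Prop :=
  ∀ S : Finset (Fin r ⊕ Fin k), S.card = d + 1 → ∃ G : MvPolynomial S ℂ, G ≠ 0 ∧
    ∀ w x, (w, x) ∈ V → eval (fun s : S => Sum.elim w x s) G = 0

/-- conversion of polynomials -/
noncomputable def conv (S : Finset (Fin r ⊕ Fin k)) (F : MvPolynomial (ι ⊕ S)
    (algebraicClosure ℚ ℂ)) : MvPolynomial S (MvPolynomial ι ℂ) :=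
  map (map (algebraMap (algebraicClosure ℚ ℂ) ℂ))
    (aeval (Sum.elim (fun y => C (X y)) X) F : MvPolynomial S (MvPolynomial ι
      (algebraicClosure ℚ ℂ)))

theorem conv_alg (S : Finset (Fin r ⊕ Fin k)) (F : MvPolynomial (ι ⊕ S)
    (algebraicClosure ℚ ℂ)) (m : S →₀ ℕ) (e : ι →₀ ℕ) :
    IsAlgebraic ℚ (((conv S F).coeff m).coeff e) := by
  rw [conv, coeff_map, coeff_map]
  exact mem_algebraicClosure_iff.1 (coeff e (coeff m (aeval (Sum.elim (fun y => C (X y)) X) F :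
    MvPolynomial S (MvPolynomial ι (algebraicClosure ℚ ℂ))))).2

theorem conv_spz (S : Finset (Fin r ⊕ Fin k)) (z : ι → ℂ) (F : MvPolynomial (ι ⊕ S)
    (algebraicClosure ℚ ℂ)) : map (eval z) (conv S F) = spz z F := by
  have h : ((map (eval z)).comp (map (map (algebraMap (algebraicClosure ℚ ℂ) ℂ)))).comp
      (aeval (Sum.elim (fun y => C (X y)) X) : MvPolynomial (ι ⊕ S) (algebraicClosure ℚ ℂ)
        →ₐ[algebraicClosure ℚ ℂ] MvPolynomial S (MvPolynomial ι
        (algebraicClosure ℚ ℂ))).toRingHom =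
      (spz z : MvPolynomial (ι ⊕ S) (algebraicClosure ℚ ℂ) →ₐ[algebraicClosure ℚ ℂ]
        MvPolynomial S ℂ).toRingHom := by
    apply MvPolynomial.ringHom_ext
    · intro t
      simp only [RingHom.comp_apply]
      change map (eval z) (map (map _) (aeval _ (C t))) = spz z (C t)
      rw [spz, aeval_C, aeval_C]
      have h1 : algebraMap (algebraicClosure ℚ ℂ) (MvPolynomial S (MvPolynomial ι
        (algebraicClosure ℚ ℂ))) t = C (C t) := rfl
      rw [h1, map_C, map_C, map_C, eval_C]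
      rfl
    · intro i
      simp only [RingHom.comp_apply]
      change map (eval z) (map (map _) (aeval _ (X i))) = spz z (X i)
      rw [spz, aeval_X, aeval_X]
      rcases i with y | i
      · simp only [Sum.elim_inl]
        rw [map_C, map_C, map_X, eval_X]
      · simp only [Sum.elim_inr]
        rw [map_X, map_X]
  exact DFunLike.congr_fun h F

/-- **Uniform relations** for the fibres. -/
theorem exists_family [Finite ι] (ℋ : Finset (MvPolynomial (ι ⊕ (Fin r ⊕ Fin k)) ℂ))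
    (hℋ : ∀ H ∈ ℋ, ∀ m, IsAlgebraic ℚ (H.coeff m)) (S : Finset (Fin r ⊕ Fin k)) :
    ∃ 𝓕 : Finset (MvPolynomial S (MvPolynomial ι ℂ)),
      (∀ F ∈ 𝓕, ∀ m e, IsAlgebraic ℚ ((F.coeff m).coeff e)) ∧
      ∀ z : ι → ℂ, (∃ G : MvPolynomial S ℂ, G ≠ 0 ∧
        ∀ w x, (w, x) ∈ fib ℋ z → eval (fun s : S => Sum.elim w x s) G = 0) →
        ∃ F ∈ 𝓕, map (eval z) F ≠ 0 ∧
          ∀ w x, (w, x) ∈ fib ℋ z →
            eval (fun s : S => Sum.elim w x s) (map (eval z) F) = 0 := by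
  classical
  let 𝔸 := algebraicClosure ℚ ℂ
  choose! lft hlft using fun (H : MvPolynomial (ι ⊕ (Fin r ⊕ Fin k)) ℂ) (hH : H ∈ ℋ) =>
    lift_alg H (hℋ H hH)
  let Y := (Fin r ⊕ Fin k) ⊕ Unit
  let rab : MvPolynomial (ι ⊕ Y) 𝔸 :=
    X (Sum.inr (Sum.inr ())) * ∏ j : Fin k, X (Sum.inr (Sum.inl (Sum.inr j))) - 1
  let ℋ' : Finset (MvPolynomial (ι ⊕ Y) 𝔸) :=
    insert rab (ℋ.image fun H => rename (Sum.map id Sum.inl) (lft H))
  have hev : ∀ (z : ι → ℂ) (u : (Fin r ⊕ Fin k) → ℂ) (t : ℂ), (∀ H ∈ ℋ',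
      aeval (Sum.elim z (Sum.elim u (fun _ : Unit => t))) H = 0) ↔
      t * ∏ j, u (Sum.inr j) = 1 ∧ ∀ H ∈ ℋ, eval (Sum.elim z u) H = 0 := by
    intro z u t
    have h1 : aeval (Sum.elim z (Sum.elim u (fun _ : Unit => t))) rab =
        t * ∏ j, u (Sum.inr j) - 1 := by
      simp only [rab, map_sub, map_mul, map_prod, aeval_X, map_one, Sum.elim_inr, Sum.elim_inl]
    have h2 : ∀ H ∈ ℋ, aeval (Sum.elim z (Sum.elim u (fun _ : Unit => t)))
        (rename (Sum.map id Sum.inl) (lft H)) = eval (Sum.elim z u) H := by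
      intro H hH
      rw [aeval_rename]
      have h3 : Sum.elim z (Sum.elim u (fun _ : Unit => t)) ∘ Sum.map id Sum.inl =
          Sum.elim z u := by
        funext i
        rcases i with i | i <;> rfl
      rw [h3, aeval_def, ← eval_map, hlft H hH]
    constructor
    · intro h
      refine ⟨?_, fun H hH => ?_⟩
      · have h3 := h rab (Finset.mem_insert_self _ _)
        rw [h1, sub_eq_zero] at h3
        exact h3
      · rw [← h2 H hH]
        exact h _ (Finset.mem_insert_of_mem (Finset.mem_image_of_mem _ hH))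
    · rintro ⟨h3, h4⟩ H hH
      rcases Finset.mem_insert.1 hH with rfl | hH
      · rw [h1, h3, sub_self]
      · obtain ⟨H', hH', rfl⟩ := Finset.mem_image.1 hH
        rw [h2 H' hH']
        exact h4 H' hH'
  obtain ⟨𝓕₀, h𝓕₀⟩ := elim (Ω := ℂ) (fun s : S => (Sum.inl (s : Fin r ⊕ Fin k) : Y)) ℋ'
  refine ⟨𝓕₀.image (conv S), ?_, fun z hz => ?_⟩
  · intro F hF m e
    obtain ⟨F, -, rfl⟩ := Finset.mem_image.1 hF
    exact conv_alg S F m e
  · obtain ⟨G, hG0, hG⟩ := hz
    have hx : ∀ x : Y → ℂ, x = Sum.elim (fun u => x (Sum.inl u)) (fun _ : Unit =>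
        x (Sum.inr ())) := by
      intro x
      funext i
      rcases i with i | i <;> rfl
    obtain ⟨F, hF, hF0, hFV⟩ := h𝓕₀ z ⟨G, hG0, fun x hxH => by
      rw [hx x, hev] at hxH
      obtain ⟨h1, h2⟩ := hxH
      have h3 := hG (fun i => x (Sum.inl (Sum.inl i))) (fun j => x (Sum.inl (Sum.inr j))) ?_
      · have h4 : (fun s : S => Sum.elim (fun i => x (Sum.inl (Sum.inl i)))
            (fun j => x (Sum.inl (Sum.inr j))) (s : Fin r ⊕ Fin k)) =
            fun s : S => x (Sum.inl (s : Fin r ⊕ Fin k)) := by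
          funext s
          rcases s with ⟨s | s, hs⟩ <;> rfl
        rw [h4] at h3
        exact h3
      · refine ⟨fun j h0 => ?_, fun H hH => ?_⟩
        · rw [Finset.prod_eq_zero (Finset.mem_univ j) h0, mul_zero] at h1
          exact zero_ne_one h1
        · rw [← h2 H hH]
          congr 2
          funext i
          rcases i with i | i | i <;> rfl⟩
    refine ⟨conv S F, Finset.mem_image_of_mem _ hF, ?_, fun w x hwx => ?_⟩
    · rw [conv_spz]
      exact hF0
    · rw [conv_spz]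
      have h1 := hFV (Sum.elim (Sum.elim w x) (fun _ : Unit => (∏ j, x j)⁻¹)) (by
        rw [hev]
        refine ⟨?_, hwx.2⟩
        simp only [Sum.elim_inr]
        exact inv_mul_cancel₀ (Finset.prod_ne_zero_iff.2 fun j _ => hwx.1 j))
      exact h1

/-- **The main theorem.** -/
theorem fin [Fintype ι] (ℋ : Finset (MvPolynomial (ι ⊕ (Fin r ⊕ Fin k)) ℂ))
    (hℋ : ∀ H ∈ ℋ, ∀ m, IsAlgebraic ℚ (H.coeff m)) :
    ∃ K : ℕ, ∀ (Pt : Type) (z : Pt → ι → ℂ) (B : ℝ),
      (∀ P i, IsAlgebraic ℚ (z P i) ∧ absLogHeight₁ (z P i) ≤ B) →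
      ∀ N t : ℕ, K * t < N → ∀ B₁ : ℝ,
      ∀ p : Fin N → ℕ, (∀ i, (p i).Prime) → Function.Injective p → ∃ c : ℕ, ∀ R : ℕ, 1 ≤ R →
        ∃ X : Finset (Fin N → Fin k → ℤ),
          X.card * (2 * R + 1) ^ t ≤ c * (2 * R + 1) ^ (k * N + k - 1) ∧
          ∀ e : Fin N → Fin k → ℤ, (∀ i j, |e i j| ≤ R) → e ∉ X →
            ∀ P (d : ℕ), DimFib d (fib ℋ (z P)) →
            ∀ (M : Submodule ℤ (Fin k → ℤ)) (η : Fin k → ℂ),
              (∀ j, η j ≠ 0 ∧ IsAlgebraic ℚ (η j) ∧ absLogHeight₁ (η j) ≤ B₁) →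
              ∀ A : Set (Fin (r + k) → ℂ),
              (∀ y ∈ A, (prW y, fun j => (∏ i, (p i : ℂ) ^ e i j)⁻¹ * prX y j) ∈
                fib ℋ (z P)) →
              prX '' A ⊆ coset M η → (idealOf A).IsPrime →
              dim A + (Module.finrank ℤ M : Cardinal) ≤ (d : Cardinal) := by
  classical
  choose 𝓕 h𝓕 h𝓕' using fun S => exists_family ℋ hℋ S
  choose K hK using fun d : ℕ => main (r := r) (k := k) d (fun S _ => 𝓕 S) (fun S _ => h𝓕 S)
  refine ⟨∑ d ∈ Finset.range (r + k + 1), K d, fun Pt z B hz N t hN B₁ p hp hpi => ?_⟩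
  have hKN : ∀ d ∈ Finset.range (r + k + 1), K d * t < N := fun d hd =>
    lt_of_le_of_lt (Nat.mul_le_mul_right t
      (Finset.single_le_sum (f := K) (fun _ _ => Nat.zero_le _) hd)) hN
  have h1 : ∀ d : ℕ, ∃ c : ℕ, d ∈ Finset.range (r + k + 1) → ∀ R : ℕ, 1 ≤ R →
        ∃ X : Finset (Fin N → Fin k → ℤ),
          X.card * (2 * R + 1) ^ t ≤ c * (2 * R + 1) ^ (k * N + k - 1) ∧
          ∀ e : Fin N → Fin k → ℤ, (∀ i j, |e i j| ≤ R) → e ∉ X →
            ∀ P, DimFib d (fib ℋ (z P)) →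
            ∀ (M : Submodule ℤ (Fin k → ℤ)) (η : Fin k → ℂ),
              (∀ j, η j ≠ 0 ∧ IsAlgebraic ℚ (η j) ∧ absLogHeight₁ (η j) ≤ B₁) →
              ∀ A : Set (Fin (r + k) → ℂ),
              (∀ y ∈ A, (prW y, fun j => (∏ i, (p i : ℂ) ^ e i j)⁻¹ * prX y j) ∈
                fib ℋ (z P)) →
              prX '' A ⊆ coset M η → (idealOf A).IsPrime →
              dim A + (Module.finrank ℤ M : Cardinal) ≤ (d : Cardinal) := by
    intro d
    by_cases hd : d ∈ Finset.range (r + k + 1)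
    · obtain ⟨c, hc⟩ := hK d {P : Pt // DimFib d (fib ℋ (z P))} (fun P => z P.1)
        (fun P => fib ℋ (z P.1)) B (fun P i => hz P.1 i)
        (fun S hS P => h𝓕' S (z P.1) (P.2 S hS)) N t (hKN d hd) B₁ p hp hpi
      refine ⟨c, fun _ R hR => ?_⟩
      obtain ⟨X, hX, hX'⟩ := hc R hR
      exact ⟨X, hX, fun e he heX P hP => hX' e he heX ⟨P, hP⟩⟩
    · exact ⟨0, fun h => absurd h hd⟩
  choose c hc using h1
  refine ⟨∑ d ∈ Finset.range (r + k + 1), c d, fun R hR => ?_⟩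
  choose! X hX hX' using fun d hd => hc d hd R hR
  refine ⟨(Finset.range (r + k + 1)).biUnion X, ?_, fun e he heX P d hd M η hη A hAV hAη hA => ?_⟩
  · calc ((Finset.range (r + k + 1)).biUnion X).card * (2 * R + 1) ^ t ≤
          (∑ d ∈ Finset.range (r + k + 1), (X d).card) * (2 * R + 1) ^ t :=
          Nat.mul_le_mul_right _ Finset.card_biUnion_le
      _ = ∑ d ∈ Finset.range (r + k + 1), (X d).card * (2 * R + 1) ^ t := by
          rw [Finset.sum_mul]
      _ ≤ ∑ d ∈ Finset.range (r + k + 1), c d * (2 * R + 1) ^ (k * N + k - 1) :=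
          Finset.sum_le_sum fun d hd => hX d hd
      _ = _ := by rw [Finset.sum_mul]
  · have heX' : ∀ d ∈ Finset.range (r + k + 1), e ∉ X d := fun d hd h =>
      heX (Finset.mem_biUnion.2 ⟨d, hd, h⟩)
    rcases le_or_gt d (r + k) with h | h
    · have hd' : d ∈ Finset.range (r + k + 1) := Finset.mem_range.2 (by omega)
      exact hX' d hd' e he (heX' d hd') P hd M η hη A hAV hAη hA
    · have hd' : r + k ∈ Finset.range (r + k + 1) := Finset.mem_range.2 (by omega)
      have h1 : DimFib (r + k) (fib ℋ (z P)) := by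
        intro S hS
        have h2 : S.card ≤ r + k := by
          refine (Finset.card_le_univ S).trans ?_
          rw [Fintype.card_sum, Fintype.card_fin, Fintype.card_fin]
        omega
      refine (hX' (r + k) hd' e he (heX' _ hd') P h1 M η hη A hAV hAη hA).trans ?_
      exact_mod_cast h.le

end Pool.Agent.Y237.HT
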