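import Pool.Agent.Y237.HT.Den

/-!
# The average of the `p`-adic sizes of the conjugates is at most the height

Helper file.
-/

set_option autoImplicit false

namespace Pool.Agent.Y237.HT

open Height NumberField Ideal Polynomial Module

variable {K : Type} [Field K] [NumberField K]

/-- The norm of the denominator ideal times the characteristic polynomial is integral. -/
theorem charpoly_den (z : K) (I : Ideal (𝓞 K)) (hI : I ≠ ⊥)
    (h : ∀ a ∈ I, ∃ b : 𝓞 K, (b : K) = z * a) :
    ∃ P : ℤ[X], P.map (Int.castRingHom ℚ) =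
      C (I.absNorm : ℚ) * (LinearMap.toMatrix (integralBasis K) (integralBasis K)
        (LinearMap.mulLeft ℚ z)).charpoly := by
  classical
  let b := RingOfIntegers.basis K
  let bI := I.selfBasis b hI
  have hb : ∀ i, integralBasis K i = ((b i : 𝓞 K) : K) := fun i => integralBasis_apply K i
  choose w hw using fun j => h (bI j : 𝓞 K) (bI j).2
  let A : Matrix _ _ ℤ := Matrix.of fun i j => b.repr ((bI j : I) : 𝓞 K) i
  let W : Matrix _ _ ℤ := Matrix.of fun i j => b.repr (w j) i
  let Z := LinearMap.toMatrix (integralBasis K) (integralBasis K) (LinearMap.mulLeft ℚ z)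
  have hrepr : ∀ (y : 𝓞 K) i, (integralBasis K).repr (y : K) i = ((b.repr y i : ℤ) : ℚ) := by
    intro y i
    exact integralBasis_repr_apply K y i
  have hA : A.map (Int.castRingHom ℚ) = (integralBasis K).toMatrix
      (fun j => (((bI j : I) : 𝓞 K) : K)) := by
    ext i j
    rw [Matrix.map_apply, Basis.toMatrix_apply, hrepr]
    rfl
  have hW : W.map (Int.castRingHom ℚ) = Z * A.map (Int.castRingHom ℚ) := by
    rw [hA]
    have h1 : Z * (integralBasis K).toMatrix (fun j => (((bI j : I) : 𝓞 K) : K)) =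
        (integralBasis K).toMatrix (fun j => (LinearMap.mulLeft ℚ z) (((bI j : I) : 𝓞 K) : K)) := by
      ext i j
      rw [Matrix.mul_apply, Basis.toMatrix_apply]
      simp only [Z, Basis.toMatrix_apply]
      have := congrFun (LinearMap.toMatrix_mulVec_repr (integralBasis K) (integralBasis K)
        (LinearMap.mulLeft ℚ z) (((bI j : I) : 𝓞 K) : K)) i
      rw [← this]
      rfl
    rw [h1]
    ext i j
    rw [Matrix.map_apply, Basis.toMatrix_apply, LinearMap.mulLeft_apply, ← hw j, hrepr]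
    rfl
  have hdet : A.det.natAbs = I.absNorm := by
    rw [← Ideal.natAbs_det_basis_change b I bI, Basis.det_apply]
    rfl
  -- the polynomial
  let Q : ℤ[X] := (Matrix.of fun i j => X * C (A i j) - C (W i j)).det
  have hQ : Q.map (Int.castRingHom ℚ) = C (A.det : ℚ) * Z.charpoly := by
    have h2 : Z.charpoly * C (A.det : ℚ) =
        (Z.charmatrix * (A.map (Int.castRingHom ℚ)).map C).det := by
      rw [Matrix.det_mul, Matrix.charpoly]
      congr 1
      rw [← RingHom.mapMatrix_apply, ← RingHom.map_det, ← RingHom.mapMatrix_apply,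
        ← RingHom.map_det]
      rfl
    rw [mul_comm, h2]
    change (mapRingHom (Int.castRingHom ℚ)) Q = _
    rw [RingHom.map_det]
    congr 1
    have h3 : Z.charmatrix * (A.map (Int.castRingHom ℚ)).map C =
        (X : ℚ[X]) • (A.map (Int.castRingHom ℚ)).map C -
          ((Z * A.map (Int.castRingHom ℚ))).map C := by
      rw [Matrix.charmatrix, sub_mul, Matrix.map_mul]
      congr 1
      rw [Matrix.scalar_apply, Matrix.smul_eq_diagonal_mul]
    rw [h3, ← hW]
    ext i j : 2
    simp [Matrix.sub_apply, Matrix.smul_apply]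
  refine ⟨C (Int.sign A.det) * Q, ?_⟩
  rw [Polynomial.map_mul, hQ, Polynomial.map_C, ← mul_assoc, ← C_mul, ← hdet]
  congr 2
  have h4 : Int.sign A.det * A.det = (A.det.natAbs : ℤ) := by
    rw [Int.sign_mul_self_eq_natAbs]
  have h5 := congrArg (Int.castRingHom ℚ) h4
  rw [map_mul] at h5
  simpa using h5

variable (p : ℕ) [hp : Fact p.Prime]

/-- the absolute value of the algebraic closure of `ℚ_p` -/
noncomputable def nabs : AbsoluteValue (PadicAlgCl p) ℝ where
  toFun x := ‖x‖
  map_mul' x y := norm_mul x y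
  nonneg' x := norm_nonneg _
  eq_zero' x := norm_eq_zero
  add_le' x y := norm_add_le _ _

theorem nabs_nonarch : IsNonarchimedean (nabs p) := PadicAlgCl.isNonarchimedean p

theorem norm_int_le (m : ℤ) : ‖(m : PadicAlgCl p)‖ ≤ 1 := by
  have h1 : ((m : ℤ) : PadicAlgCl p) = (((m : ℚ_[p])) : PadicAlgCl p) := by
    change ((m : ℤ) : PadicAlgCl p) = algebraMap ℚ_[p] (PadicAlgCl p) ((m : ℤ) : ℚ_[p])
    rw [map_intCast]
  rw [h1, PadicAlgCl.norm_extends]
  exact Padic.norm_int_le_one m

theorem le_norm_nat (m : ℕ) (hm : m ≠ 0) : 1 ≤ (m : ℝ) * ‖(m : PadicAlgCl p)‖ := by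
  have h1 : ((m : ℕ) : PadicAlgCl p) = (((m : ℚ_[p])) : PadicAlgCl p) := by
    exact (map_natCast (algebraMap ℚ_[p] (PadicAlgCl p)) m).symm
  rw [h1, PadicAlgCl.norm_extends]
  have h2 : ((m : ℕ) : ℚ_[p]) = (((m : ℚ)) : ℚ_[p]) := by push_cast; rfl
  rw [h2, Padic.eq_padicNorm, padicNorm.eq_zpow_of_nonzero (by exact_mod_cast hm)]
  have h3 : padicValRat p (m : ℚ) = (padicValNat p m : ℤ) := padicValRat.of_nat
  rw [h3, zpow_neg, zpow_natCast]
  push_cast
  have h4 : 0 < ((p : ℝ) ^ padicValNat p m) := pow_pos (by exact_mod_cast hp.out.pos) _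
  rw [← div_eq_mul_inv, le_div_iff₀ h4, one_mul]
  have h5 : p ^ padicValNat p m ≤ m := Nat.le_of_dvd (Nat.pos_of_ne_zero hm) pow_padicValNat_dvd
  exact_mod_cast h5

/-- The characteristic polynomial splits over `PadicAlgCl p` into the conjugates. -/
theorem charpoly_eq_prod (z : K) :
    (LinearMap.toMatrix (integralBasis K) (integralBasis K)
        (LinearMap.mulLeft ℚ z)).charpoly.map (algebraMap ℚ (PadicAlgCl p)) =
      ∏ σ : K →ₐ[ℚ] PadicAlgCl p, (X - C (σ z)) := by
  classical
  refine Polynomial.eq_of_infinite_eval_eq _ _ (Set.Infinite.mono ?_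
    (Set.infinite_range_of_injective (algebraMap ℚ (PadicAlgCl p)).injective))
  rintro _ ⟨t, rfl⟩
  change eval _ _ = eval _ _
  rw [eval_map_algebraMap, aeval_algebraMap_apply, coe_aeval_eq_eval, Matrix.eval_charpoly,
    eval_prod]
  have h1 : Matrix.scalar _ t - LinearMap.toMatrix (integralBasis K) (integralBasis K)
      (LinearMap.mulLeft ℚ z) = LinearMap.toMatrix (integralBasis K) (integralBasis K)
      (LinearMap.mulLeft ℚ (algebraMap ℚ K t - z)) := by
    have h2 : LinearMap.mulLeft ℚ (algebraMap ℚ K t - z) =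
        t • (LinearMap.id : K →ₗ[ℚ] K) - LinearMap.mulLeft ℚ z := by
      ext x
      simp [sub_mul, Algebra.smul_def]
    rw [h2, map_sub, map_smul, LinearMap.toMatrix_id, Matrix.scalar_apply,
      Matrix.smul_one_eq_diagonal]
  rw [h1, LinearMap.det_toMatrix]
  have h3 : LinearMap.det (LinearMap.mulLeft ℚ (algebraMap ℚ K t - z)) =
      Algebra.norm ℚ (algebraMap ℚ K t - z) := rfl
  rw [h3, Algebra.norm_eq_prod_embeddings ℚ (PadicAlgCl p)]
  refine Finset.prod_congr rfl fun σ _ => ?_
  rw [map_sub, σ.commutes]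
  simp

theorem gaussNorm_linear (a : PadicAlgCl p) :
    (X - C a).gaussNorm (nabs p) 1 = max 1 ‖a‖ := by
  have h := nabs_nonarch p
  apply le_antisymm
  · obtain ⟨i, hi⟩ := exists_eq_gaussNorm (nabs p) 1 (X - C a)
    rw [hi, one_pow, mul_one]
    rcases i with _ | _ | i
    · simp only [coeff_sub, coeff_X_zero, coeff_C_zero, zero_sub, map_neg_eq_map]
      exact le_max_right _ _
    · simp
    · simp [coeff_X]
  · refine max_le ?_ ?_
    · have := le_gaussNorm (nabs p) (X - C a) zero_le_one 1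
      simpa [coeff_C] using this
    · have := le_gaussNorm (nabs p) (X - C a) zero_le_one 0
      rw [one_pow, mul_one] at this
      simp only [coeff_sub, coeff_X_zero, coeff_C_zero, zero_sub, map_neg_eq_map] at this
      exact this

theorem gaussNorm_prod {ι : Type*} (s : Finset ι) (f : ι → (PadicAlgCl p)[X]) :
    (∏ i ∈ s, f i).gaussNorm (nabs p) 1 = ∏ i ∈ s, (f i).gaussNorm (nabs p) 1 := by
  classical
  induction s using Finset.induction_on with
  | empty =>
    rw [Finset.prod_empty, Finset.prod_empty, ← C_1, gaussNorm_C, map_one]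
  | insert a s ha ih =>
    rw [Finset.prod_insert ha, Finset.prod_insert ha, gaussNorm_mul (nabs_nonarch p) one_pos, ih]

/-- **The `p`-adic part of the height.** -/
theorem prod_max_le (z : K) :
    ∏ σ : K →ₐ[ℚ] PadicAlgCl p, max 1 ‖σ z‖ ≤ mulHeight₁ z := by
  classical
  obtain ⟨I, hI0, hI, hIn⟩ := exists_den z
  obtain ⟨P, hP⟩ := charpoly_den z I hI0 hI
  refine le_trans ?_ hIn
  have hN : I.absNorm ≠ 0 := absNorm_eq_zero_iff.not.2 hI0
  have h1 : ∏ σ : K →ₐ[ℚ] PadicAlgCl p, max 1 ‖σ z‖ =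
      ((LinearMap.toMatrix (integralBasis K) (integralBasis K)
        (LinearMap.mulLeft ℚ z)).charpoly.map (algebraMap ℚ (PadicAlgCl p))).gaussNorm
          (nabs p) 1 := by
    rw [charpoly_eq_prod, gaussNorm_prod]
    refine Finset.prod_congr rfl fun σ _ => ?_
    rw [gaussNorm_linear]
  rw [h1]
  obtain ⟨i, hi⟩ := exists_eq_gaussNorm (nabs p) 1
    ((LinearMap.toMatrix (integralBasis K) (integralBasis K)
        (LinearMap.mulLeft ℚ z)).charpoly.map (algebraMap ℚ (PadicAlgCl p)))
  rw [hi, one_pow, mul_one]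
  set c := (LinearMap.toMatrix (integralBasis K) (integralBasis K)
        (LinearMap.mulLeft ℚ z)).charpoly.coeff i with hc
  rw [coeff_map, ← hc]
  have h2 : ((P.coeff i : ℤ) : ℚ) = (I.absNorm : ℚ) * c := by
    have h3 := congrArg (fun q => q.coeff i) hP
    simpa [coeff_map, hc] using h3
  have h4 : ((P.coeff i : ℤ) : PadicAlgCl p) = (I.absNorm : PadicAlgCl p) *
      algebraMap ℚ (PadicAlgCl p) c := by
    have h5 := congrArg (algebraMap ℚ (PadicAlgCl p)) h2
    rw [map_mul, map_intCast, map_natCast] at h5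
    exact h5
  have h6 : ‖(I.absNorm : PadicAlgCl p)‖ * ‖algebraMap ℚ (PadicAlgCl p) c‖ ≤ 1 := by
    rw [← norm_mul, ← h4]
    exact norm_int_le p _
  have h7 := le_norm_nat p I.absNorm hN
  change ‖algebraMap ℚ (PadicAlgCl p) c‖ ≤ (I.absNorm : ℝ)
  calc ‖algebraMap ℚ (PadicAlgCl p) c‖ ≤
        ((I.absNorm : ℝ) * ‖(I.absNorm : PadicAlgCl p)‖) * ‖algebraMap ℚ (PadicAlgCl p) c‖ :=
        le_mul_of_one_le_left (norm_nonneg _) h7
    _ = (I.absNorm : ℝ) * (‖(I.absNorm : PadicAlgCl p)‖ * ‖algebraMap ℚ (PadicAlgCl p) c‖) := by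
        ring
    _ ≤ (I.absNorm : ℝ) * 1 := mul_le_mul_of_nonneg_left h6 (Nat.cast_nonneg _)
    _ = (I.absNorm : ℝ) := mul_one _

end Pool.Agent.Y237.HT
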