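import Pool.Agent.Y237.HT.Null

/-!
# Preperiodic points have bounded height

Helper file.
-/

set_option autoImplicit false

namespace Pool.Agent.Y237.HT

open MvPolynomial Height NumberField Module

theorem exists_field_set (S : Set ℂ) (hS : S.Finite) (h : ∀ x ∈ S, IsAlgebraic ℚ x) :
    ∃ K : IntermediateField ℚ ℂ, NumberField K ∧ ∀ x ∈ S, x ∈ K := by
  have : Finite S := hS
  obtain ⟨K, hK, h1⟩ := exists_field (ι := Fin (Nat.card S))
    (fun i => ((Finite.equivFin S).symm i : ℂ)) (fun i => h _ ((Finite.equivFin S).symm i).2)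
  refine ⟨K, hK, fun x hx => ?_⟩
  have := h1 (Finite.equivFin S ⟨x, hx⟩)
  rwa [Equiv.symm_apply_apply] at this

theorem eval_mem {ι : Type} [Fintype ι] (K : IntermediateField ℚ ℂ) (p : MvPolynomial ι ℂ)
    (hp : ∀ m, p.coeff m ∈ K) (z : ι → ℂ) (hz : ∀ i, z i ∈ K) : eval z p ∈ K := by
  rw [eval_eq']
  exact sum_mem fun m _ => mul_mem (hp m) (prod_mem fun i _ => pow_mem (hz i) _)

theorem coeff_mem_of {ι : Type} (K : IntermediateField ℚ ℂ) (p : MvPolynomial ι ℂ)
    (hp : ∀ m ∈ p.support, p.coeff m ∈ K) (m : ι →₀ ℕ) : p.coeff m ∈ K := by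
  by_cases h : m ∈ p.support
  · exact hp m h
  · rw [notMem_support_iff.1 h]
    exact zero_mem K

/-- the map given by the polynomials `f j` -/
noncomputable def polyMap {ι : Type} (f : ι → MvPolynomial ι ℂ) (z : ι → ℂ) : ι → ℂ :=
  fun j => eval z (f j)

/-- **Preperiodic points have bounded height.** -/
theorem preper_height {ι : Type} [Fintype ι] [DecidableEq ι] {q : ℕ} (hq : 2 ≤ q)
    (f : ι → MvPolynomial ι ℂ)
    (hf : ∀ j, (f j).IsHomogeneous q) (hfa : ∀ j m, IsAlgebraic ℚ ((f j).coeff m))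
    (G : Set (MvPolynomial ι ℂ)) (hG : ∀ g ∈ G, ∃ D, g.IsHomogeneous D)
    (hGa : ∀ g ∈ G, ∀ m, IsAlgebraic ℚ (g.coeff m))
    (hnz : ∀ z : ι → ℂ, (∀ g ∈ G, eval z g = 0) → (∀ j, eval z (f j) = 0) → z = 0) :
    ∃ C : ℝ, ∀ z : ι → ℂ, z ≠ 0 → (∀ i, IsAlgebraic ℚ (z i)) →
      (∀ l : ℕ, ∀ g ∈ G, eval ((polyMap f)^[l] z) g = 0) →
      (∃ i j : ℕ, i < j ∧ ∃ c : ℂ, (polyMap f)^[j] z = c • (polyMap f)^[i] z) →
      ∀ k, z k ≠ 0 → ∀ i, absLogHeight₁ (z i / z k) ≤ C := by
  classical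
  obtain ⟨M, Q, hQ, hQa, hcert⟩ := exists_cert f hf hfa G hG hGa hnz
  obtain ⟨C, hC⟩ := height_ge (q := q) Q hQ
  refine ⟨C, fun z hz0 hza hzG hper k hk i => ?_⟩
  obtain ⟨i₀, j₀, hij, c, hc⟩ := hper
  -- the number field
  let S : Set ℂ := Set.range z ∪ (⋃ a, (fun m => (Q a).coeff m) '' ((Q a).support : Set _)) ∪
    ⋃ j, (fun m => (f j).coeff m) '' ((f j).support : Set _)
  have hS : S.Finite := by
    refine ((Set.finite_range z).union (Set.finite_iUnion fun a => ?_)).union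
      (Set.finite_iUnion fun j => ?_)
    · exact (Finset.finite_toSet _).image _
    · exact (Finset.finite_toSet _).image _
  have hSa : ∀ x ∈ S, IsAlgebraic ℚ x := by
    rintro x ((⟨i, rfl⟩ | hx) | hx)
    · exact hza i
    · obtain ⟨a, m, -, rfl⟩ := Set.mem_iUnion.1 hx
      exact hQa a m
    · obtain ⟨j, m, -, rfl⟩ := Set.mem_iUnion.1 hx
      exact hfa j m
  obtain ⟨K, hK, hSK⟩ := exists_field_set S hS hSa
  have hzK : ∀ i, z i ∈ K := fun i => hSK _ (Or.inl (Or.inl ⟨i, rfl⟩))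
  have hQK : ∀ a m, (Q a).coeff m ∈ K := fun a => coeff_mem_of K (Q a) fun m hm =>
    hSK _ (Or.inl (Or.inr (Set.mem_iUnion.2 ⟨a, m, hm, rfl⟩)))
  have hfK : ∀ j m, (f j).coeff m ∈ K := fun j => coeff_mem_of K (f j) fun m hm =>
    hSK _ (Or.inr (Set.mem_iUnion.2 ⟨j, m, hm, rfl⟩))
  have hlK : ∀ l i, (polyMap f)^[l] z i ∈ K := by
    intro l
    induction l with
    | zero => exact hzK
    | succ l ih =>
      intro i
      rw [Function.iterate_succ_apply']
      exact eval_mem K _ (hfK i) _ ih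
  let x : ℕ → ι → K := fun l i => ⟨(polyMap f)^[l] z i, hlK l i⟩
  have hn : (0 : ℝ) < finrank ℚ K := by exact_mod_cast finrank_pos
  have hstep : ∀ l, (q : ℝ) * logHeight (x l) ≤ finrank ℚ K * C + logHeight (x (l + 1)) := by
    intro l
    refine hC K hQK (x l) (x (l + 1)) fun k => ?_
    have h1 := hcert ((polyMap f)^[l] z) (hzG l) k
    rw [← h1]
    refine Finset.sum_congr rfl fun j _ => ?_
    have h2 : ((x (l + 1) j : K) : ℂ) = eval ((polyMap f)^[l] z) (f j) := by
      change (polyMap f)^[l + 1] z j = _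
      rw [Function.iterate_succ_apply']
      rfl
    rw [h2]
  -- no iterate vanishes
  have hnzl : ∀ l, (polyMap f)^[l] z ≠ 0 := by
    intro l
    induction l with
    | zero => exact hz0
    | succ l ih =>
      intro h
      rw [Function.iterate_succ_apply'] at h
      exact ih (hnz _ (hzG l) fun j => congrFun h j)
  have hc0 : c ≠ 0 := by
    rintro rfl
    rw [zero_smul] at hc
    exact hnzl _ hc
  obtain ⟨k₀, hk₀⟩ := Function.ne_iff.1 (hnzl i₀)
  have hcK : c ∈ K := by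
    have h1 := congrFun hc k₀
    rw [Pi.smul_apply, smul_eq_mul] at h1
    have h2 : c = (polyMap f)^[j₀] z k₀ / (polyMap f)^[i₀] z k₀ := by
      rw [eq_div_iff hk₀, h1]
    rw [h2]
    exact div_mem (hlK _ _) (hlK _ _)
  have hheq : logHeight (x j₀) = logHeight (x i₀) := by
    have h1 : x j₀ = (⟨c, hcK⟩ : K) • x i₀ := by
      funext i
      apply Subtype.ext
      exact congrFun hc i
    rw [h1]
    exact logHeight_smul_eq_logHeight _ (fun h => hc0 (congrArg (fun t : K => (t : ℂ)) h))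
  -- growth
  let g : ℕ → ℝ := fun l => logHeight (x l) - finrank ℚ K * C
  have hC0 : 0 ≤ finrank ℚ K * C + logHeight (x (i₀ + 1)) :=
    le_trans (by have := logHeight_nonneg (x i₀); positivity) (hstep i₀)
  have hg : ∀ l, 2 * g l ≤ g (l + 1) := by
    intro l
    have h1 := hstep l
    have h2 := logHeight_nonneg (x l)
    have h3 : (2 : ℝ) ≤ q := by exact_mod_cast hq
    have h4 : 2 * logHeight (x l) ≤ q * logHeight (x l) := mul_le_mul_of_nonneg_right h3 h2
    simp only [g]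
    linarith
  have hgm : ∀ l d, 2 ^ d * g l ≤ g (l + d) := by
    intro l d
    induction d with
    | zero => simp
    | succ d ih =>
      have := hg (l + d)
      rw [pow_succ']
      rw [← add_assoc]
      linarith
  have h1 : g i₀ ≤ 0 := by
    obtain ⟨d, rfl⟩ := Nat.exists_eq_add_of_lt hij
    have h2 := hgm i₀ (d + 1)
    have h3 : g (i₀ + (d + 1)) = g i₀ := by
      simp only [g]
      rw [← add_assoc, hheq]
    rw [h3] at h2
    by_contra hcon
    push Not at hcon
    have h4 : (2 : ℝ) ≤ 2 ^ (d + 1) := by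
      rw [pow_succ']
      have : (1 : ℝ) ≤ 2 ^ d := one_le_pow₀ one_le_two
      linarith
    nlinarith
  have h2 : g 0 ≤ 0 := by
    have h3 := hgm 0 i₀
    rw [zero_add] at h3
    by_contra hcon
    push Not at hcon
    have h4 : (0 : ℝ) < 2 ^ i₀ := pow_pos two_pos _
    nlinarith [mul_pos h4 hcon]
  have h3 : logHeight (x 0) ≤ finrank ℚ K * C := by
    simp only [g] at h2
    linarith
  -- the coordinates
  have h4 : logHeight₁ (x 0 i / x 0 k) ≤ logHeight (x 0) := by
    rw [logHeight₁_div_eq_logHeight]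
    have h5 : ![x 0 i, x 0 k] = x 0 ∘ ![i, k] := by
      funext a
      fin_cases a <;> rfl
    rw [h5]
    exact logHeight_comp_le _ _
  rw [logHeight₁_eq_abs] at h4
  have h5 := h4.trans h3
  exact le_of_mul_le_mul_left h5 hn

end Pool.Agent.Y237.HT
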