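import Pool.Agent.Y237.HT.Cof
import Pool.Agent.Y237.HT.Prep

/-!
# The main theorem

Helper file.
-/

set_option autoImplicit false

namespace Pool.Agent.Y237.HT

open MvPolynomial Pool.Agent.TH526.ZT Pool.Agent.H173R3.ZT NumberField
open Pool.Agent.Results.MP_b7926e_nt.NoAtypical (coset idealOf dim mem_idealOf)

variable {r k : ℕ}

lemma supp_rename' {σ τ R : Type} [CommSemiring R] (f : σ → τ) (hf : Function.Injective f)
    (F : MvPolynomial σ R) (m : τ →₀ ℕ) (hm : m ∈ (rename f F).support) :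
    ∃ m' ∈ F.support, m = m'.mapDomain f := by
  classical
  rw [support_rename_of_injective hf] at hm
  obtain ⟨m', hm', rfl⟩ := Finset.mem_image.1 hm
  exact ⟨m', hm', rfl⟩

lemma exists_nat_dim {n : ℕ} (A : Set (Fin n → ℂ)) : ∃ d : ℕ, dim A = (d : Cardinal) := by
  have hfin : Algebra.trdeg ℂ (MvPolynomial (Fin n) ℂ ⧸ idealOf A) < Cardinal.aleph0 :=
    trdeg_lt_aleph0_of_finiteType
  obtain ⟨d, hd⟩ := Cardinal.lt_aleph0.1 hfin
  exact ⟨d, hd⟩

/-- the indices `I ∪ J` -/
def un (I : Finset (Fin r)) (J : Finset (Fin k)) : Finset (Fin r ⊕ Fin k) := I.disjSum J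

/-- the exponents of the torus coordinates -/
noncomputable def expo {R : Type} [CommSemiring R] (S : Finset (Fin r ⊕ Fin k))
    (F : MvPolynomial S R) : Finset (Fin k →₀ ℕ) :=
  F.support.image fun m => (sp (m.mapDomain (Subtype.val : S → Fin r ⊕ Fin k))).2

/-- the exponents of the other coordinates -/
noncomputable def expoW {R : Type} [CommSemiring R] (S : Finset (Fin r ⊕ Fin k))
    (F : MvPolynomial S R) : Finset (Fin r →₀ ℕ) :=
  F.support.image fun m => (sp (m.mapDomain (Subtype.val : S → Fin r ⊕ Fin k))).1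

lemma mapDomain_notMem (S : Finset (Fin r ⊕ Fin k)) (m : S →₀ ℕ) (s : Fin r ⊕ Fin k)
    (hs : s ∉ S) : m.mapDomain (Subtype.val : S → Fin r ⊕ Fin k) s = 0 :=
  Finsupp.mapDomain_of_notMem_range _ _ (by
    rintro ⟨a, rfl⟩
    exact hs a.2)

theorem abs_root_of_unity {η : ℂ} {m : ℕ} (hm : 0 < m) (h : η ^ m = 1) :
    IsAlgebraic ℚ η ∧ absLogHeight₁ η = 0 := by
  have ha : IsAlgebraic ℚ η := by
    refine IsAlgebraic.of_pow hm ?_
    rw [h]
    exact isAlgebraic_one
  refine ⟨ha, ?_⟩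
  obtain ⟨K, hK, hηK⟩ := exists_field (fun _ : Unit => η) (fun _ => ha)
  have h1 := Height.logHeight₁_pow (⟨η, hηK ()⟩ : K) m
  have h2 : (⟨η, hηK ()⟩ : K) ^ m = 1 := Subtype.ext h
  rw [h2, Height.logHeight₁_one, logHeight₁_eq_abs] at h1
  have h3 : (0 : ℝ) < Module.finrank ℚ K := by exact_mod_cast Module.finrank_pos
  have h4 : (0 : ℝ) < m := by exact_mod_cast hm
  have h5 : (m : ℝ) * (Module.finrank ℚ K * absLogHeight₁ η) = 0 := h1.symm
  rcases mul_eq_zero.1 h5 with h6 | h6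
  · exact absurd h6 h4.ne'
  · rcases mul_eq_zero.1 h6 with h7 | h7
    · exact absurd h7 h3.ne'
    · exact h7

/-- **Main theorem.** `z P` are points of bounded height, indexed by `P`, and `V P` are the fibres. -/
theorem main {ι : Type} [Fintype ι] (d : ℕ)
    (𝓕 : ∀ S : Finset (Fin r ⊕ Fin k), S.card = d + 1 →
      Finset (MvPolynomial S (MvPolynomial ι ℂ)))
    (h𝓕 : ∀ S hS, ∀ F ∈ 𝓕 S hS, ∀ m e, IsAlgebraic ℚ ((F.coeff m).coeff e)) :
    ∃ K : ℕ, ∀ (Pt : Type) (z : Pt → ι → ℂ) (V : Pt → Set ((Fin r → ℂ) × (Fin k → ℂ))) (B : ℝ),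
      (∀ P i, IsAlgebraic ℚ (z P i) ∧ absLogHeight₁ (z P i) ≤ B) →
      (∀ S hS P, ∃ F ∈ 𝓕 S hS, map (eval (z P)) F ≠ 0 ∧
        ∀ w x, (w, x) ∈ V P → eval (fun s : S => Sum.elim w x s) (map (eval (z P)) F) = 0) →
      ∀ N t : ℕ, K * t < N → ∀ B₁ : ℝ,
      ∀ p : Fin N → ℕ, (∀ i, (p i).Prime) → Function.Injective p → ∃ c : ℕ, ∀ R : ℕ, 1 ≤ R →
        ∃ X : Finset (Fin N → Fin k → ℤ),
          X.card * (2 * R + 1) ^ t ≤ c * (2 * R + 1) ^ (k * N + k - 1) ∧
          ∀ e : Fin N → Fin k → ℤ, (∀ i j, |e i j| ≤ R) → e ∉ X →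
            ∀ P (M : Submodule ℤ (Fin k → ℤ)) (η : Fin k → ℂ),
              (∀ j, η j ≠ 0 ∧ IsAlgebraic ℚ (η j) ∧ absLogHeight₁ (η j) ≤ B₁) →
              ∀ A : Set (Fin (r + k) → ℂ),
              (∀ y ∈ A, (prW y, fun j => (∏ i, (p i : ℂ) ^ e i j)⁻¹ * prX y j) ∈ V P) →
              prX '' A ⊆ coset M η → (idealOf A).IsPrime →
              dim A + (Module.finrank ℤ M : Cardinal) ≤ (d : Cardinal) := by
  classical
  -- the constants `K`
  have hun : ∀ (I : Finset (Fin r)) (J : Finset (Fin k)), I.card ≤ d + 1 →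
      J.card = d + 1 - I.card → (un I J).card = d + 1 := by
    intro I J hI hJ
    rw [un, Finset.card_disjSum, hJ]
    omega
  let SS : ∀ I : Finset (Fin r), I.card ≤ d + 1 →
      {J : Finset (Fin k) // J.card = d + 1 - I.card} → Finset (Fin k →₀ ℕ) := fun I hI J =>
    (𝓕 (un I J.1) (hun I J.1 hI J.2)).biUnion fun F => expo _ F
  have hSS : ∀ I hI, ∀ J, ∀ α ∈ SS I hI J, ∀ j, j ∉ J.1 → α j = 0 := by
    intro I hI J α hα j hj
    obtain ⟨F, -, hF⟩ := Finset.mem_biUnion.1 hα
    obtain ⟨m, -, rfl⟩ := Finset.mem_image.1 hF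
    refine mapDomain_notMem _ m (Sum.inr j) ?_
    rw [un, Finset.inr_mem_disjSum]
    exact hj
  have hK : ∀ I : Finset (Fin r), ∃ K : ℕ, ∀ hI : I.card ≤ d + 1, ∀ N t : ℕ, K * t < N →
      ∀ B ε : ℝ, ∃ B' : ℝ, 0 ≤ B' ∧
      ∀ v : Fin N → AbsoluteValue ℂ ℝ,
      ∀ f : {J : Finset (Fin k) // J.card = d + 1 - I.card} → MvPolynomial (Fin k) ℂ,
      (∀ J, f J ≠ 0) → (∀ J, (f J).support ⊆ SS I hI J) → (∀ i J, err (v i) (f J) ≤ ε) →
      ∀ g : Fin k → ℂ, (∀ j, g j ≠ 0) →
        ∀ (M : Submodule ℤ (Fin k → ℤ)) (η : Fin k → ℂ), (∀ j, η j ≠ 0) →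
          (∀ i j, |Real.log (v i (η j))| ≤ B) → ∀ A ⊆ coset M η,
            (∀ J, ∀ y ∈ A, eval (fun j => (g j)⁻¹ * y j) (f J) = 0) →
            (idealOf A).IsPrime →
            ((d + 1 - I.card : ℕ) : Cardinal) ≤ dim A + (Module.finrank ℤ M : Cardinal) →
            Bad t v g B' := by
    intro I
    by_cases hI : I.card ≤ d + 1
    · obtain ⟨K, h⟩ := famB (d + 1 - I.card) (SS I hI) (hSS I hI)
      exact ⟨K, fun _ => h⟩
    · exact ⟨0, fun h => absurd h hI⟩
  choose K hK using hK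
  refine ⟨∑ I, K I, fun Pt z V B hz hV N t hN B₁ p hp hpi => ?_⟩
  have hKN : ∀ I, K I * t < N := fun I => lt_of_le_of_lt (Nat.mul_le_mul_right t
    (Finset.single_le_sum (f := K) (fun _ _ => Nat.zero_le _) (Finset.mem_univ I))) hN
  -- the list of the coefficients
  let L : Finset (MvPolynomial ι ℂ) := Finset.univ.biUnion
    fun S : {S : Finset (Fin r ⊕ Fin k) // S.card = d + 1} =>
      (𝓕 S.1 S.2).biUnion fun F => F.support.image fun m => F.coeff m
  have hLa : ∀ c ∈ L, ∀ m, IsAlgebraic ℚ (c.coeff m) := by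
    intro c hc m
    obtain ⟨S, -, hS⟩ := Finset.mem_biUnion.1 hc
    obtain ⟨F, hF, hF'⟩ := Finset.mem_biUnion.1 hS
    obtain ⟨m', -, rfl⟩ := Finset.mem_image.1 hF'
    exact h𝓕 _ _ F hF m' m
  choose! C hC using fun (c : MvPolynomial ι ℂ) (hc : c ∈ L) => abs_eval_le c (hLa c hc) B
  let C₁ : ℝ := |B₁| + ∑ c ∈ L, |C c|
  have hC₁ : ∀ c ∈ L, C c ≤ C₁ := fun c hc => (le_abs_self _).trans
    ((Finset.single_le_sum (f := fun c => |C c|) (fun _ _ => abs_nonneg _) hc).trans
      (le_add_of_nonneg_left (abs_nonneg _)))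
  have hC₁0 : 0 ≤ C₁ := add_nonneg (abs_nonneg _) (Finset.sum_nonneg fun _ _ => abs_nonneg _)
  have hB₁C : B₁ ≤ C₁ := (le_abs_self _).trans (le_add_of_nonneg_right
    (Finset.sum_nonneg fun _ _ => abs_nonneg _))
  -- the bound for the logarithms
  let B₂ : ℝ := 2 * (((L.card + k : ℕ) : ℝ) * C₁)
  have hB₂ : 0 ≤ B₂ := by positivity
  let nS : ℕ := ∑ I : Finset (Fin r), if hI : I.card ≤ d + 1 then
    ∑ J, (SS I hI J).card else 0
  let ε : ℝ := nS * B₂ + Real.log (nS + 1)
  choose B' hB'0 hB' using fun I => fun hI : I.card ≤ d + 1 => hK I hI N t (hKN I) B₂ ε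
  let B'' : ℝ := ∑ I : Finset (Fin r), if hI : I.card ≤ d + 1 then B' I hI else 0
  have hB''I : ∀ I hI, B' I hI ≤ B'' := by
    intro I hI
    have h1 : (if hI : I.card ≤ d + 1 then B' I hI else 0) ≤ B'' :=
      Finset.single_le_sum (f := fun I : Finset (Fin r) => if hI : I.card ≤ d + 1 then B' I hI
        else 0) (fun I _ => by
          split_ifs with h
          · exact hB'0 I h
          · exact le_rfl) (Finset.mem_univ I)
    rwa [dif_pos hI] at h1
  -- the counting
  have hfact : ∀ i, Fact (p i).Prime := fun i => ⟨hp i⟩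
  have hlogp : ∀ i, Real.log 2 ≤ Real.log (p i) := fun i =>
    Real.log_le_log two_pos (by exact_mod_cast (hp i).two_le)
  obtain ⟨c, hc⟩ := count_bad k N t (B'' / Real.log 2)
  refine ⟨c, fun R hR => ?_⟩
  obtain ⟨X, hX, hX'⟩ := hc R hR
  refine ⟨X, hX, fun e he heX P M η hη A hAV hAη hA => ?_⟩
  by_contra hcon
  push Not at hcon
  apply heX
  -- the good embeddings
  let ι' := {c : MvPolynomial ι ℂ // c ∈ L ∧ eval (z P) c ≠ 0} ⊕ Fin k
  have hfin : Finite {c : MvPolynomial ι ℂ // c ∈ L ∧ eval (z P) c ≠ 0} :=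
    (L.finite_toSet.subset fun c hc => hc.1).to_subtype
  have : Fintype {c : MvPolynomial ι ℂ // c ∈ L ∧ eval (z P) c ≠ 0} := Fintype.ofFinite _
  let cc : ι' → ℂ := Sum.elim (fun c => eval (z P) c.1) η
  have hcard : (Fintype.card ι' : ℝ) ≤ ((L.card + k : ℕ) : ℝ) := by
    have h1 : Fintype.card ι' = Fintype.card {c : MvPolynomial ι ℂ // c ∈ L ∧ eval (z P) c ≠ 0} +
        k := by
      rw [Fintype.card_sum, Fintype.card_fin]
    have h2 : Fintype.card {c : MvPolynomial ι ℂ // c ∈ L ∧ eval (z P) c ≠ 0} ≤ L.card := by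
      rw [← Fintype.card_coe L]
      refine Fintype.card_le_of_injective (fun c => (⟨c.1, c.2.1⟩ : L)) ?_
      intro c c' h
      exact Subtype.ext (congrArg (fun x : L => x.1) h)
    rw [h1]
    exact_mod_cast Nat.add_le_add_right h2 k
  have hτ : ∀ i, ∃ τ : ℂ →+* PadicAlgCl (p i), ∀ a, |Real.log (pabs (p i) τ (cc a))| ≤ B₂ := by
    intro i
    obtain ⟨τ, hτ⟩ := exists_good (p i) cc (by
      rintro (c | j)
      · exact (hC c.1 c.2.1 (z P) (fun i => (hz P i).1) fun i => (hz P i).2).1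
      · exact (hη j).2.1) (by
      rintro (c | j)
      · exact c.2.2
      · exact (hη j).1) C₁ (by
      rintro (c | j)
      · exact (hC c.1 c.2.1 (z P) (fun i => (hz P i).1) fun i => (hz P i).2).2.trans
          (hC₁ c.1 c.2.1)
      · exact (hη j).2.2.trans hB₁C)
    exact ⟨τ, fun a => (hτ a).trans (mul_le_mul_of_nonneg_left
      (mul_le_mul_of_nonneg_right hcard hC₁0) zero_le_two)⟩
  choose τ hτ using hτ
  let v : Fin N → AbsoluteValue ℂ ℝ := fun i => pabs (p i) (τ i)
  have hvc : ∀ i, ∀ c ∈ L, eval (z P) c ≠ 0 → |Real.log (v i (eval (z P) c))| ≤ B₂ :=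
    fun i c hc h => hτ i (Sum.inl ⟨c, hc, h⟩)
  have hvη : ∀ i j, |Real.log (v i (η j))| ≤ B₂ := fun i j => hτ i (Sum.inr j)
  let g : Fin k → ℂ := fun j => ∏ i, (p i : ℂ) ^ e i j
  have hg : ∀ j, g j ≠ 0 := fun j => Finset.prod_ne_zero_iff.2 fun l _ =>
    zpow_ne_zero _ (by exact_mod_cast (hp l).ne_zero)
  -- it is enough to show `Bad`
  suffices hbad : Bad t v g B'' by
    obtain ⟨T, hT, φ, hφ, hφB⟩ := hbad
    refine hX' e he ⟨T, hT, φ, hφ, fun i hi => ?_⟩
    have hlog : ∀ j, Real.log (v i (g j)) = -(e i j : ℝ) * Real.log (p i) := by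
      intro j
      have hq : (∏ l, (p l : ℚ) ^ e l j) ≠ 0 := Finset.prod_ne_zero_iff.2 fun l _ =>
        zpow_ne_zero _ (by exact_mod_cast (hp l).ne_zero)
      have h1 : g j = ((∏ l, (p l : ℚ) ^ e l j : ℚ) : ℂ) := by
        change ∏ l, (p l : ℂ) ^ e l j = _
        push_cast
        rfl
      rw [h1]
      change Real.log (pabs (p i) (τ i) _) = _
      rw [log_pabs _ _ _ hq]
      have h2 : padicValRat (p i) (∏ l, (p l : ℚ) ^ e l j) = e i j := by
        have h3 : ∀ t : Finset (Fin N), padicValRat (p i) (∏ l ∈ t, (p l : ℚ) ^ e l j) =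
            ∑ l ∈ t, padicValRat (p i) ((p l : ℚ) ^ e l j) := by
          intro t
          induction t using Finset.induction_on with
          | empty => simp
          | insert a t ha ih =>
            rw [Finset.prod_insert ha, Finset.sum_insert ha, padicValRat.mul, ih]
            · exact zpow_ne_zero _ (by exact_mod_cast (hp a).ne_zero)
            · exact Finset.prod_ne_zero_iff.2 fun l _ =>
                zpow_ne_zero _ (by exact_mod_cast (hp l).ne_zero)
        rw [h3, Finset.sum_eq_single i]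
        · rw [padicValRat.zpow, padicValRat.self (hp i).one_lt, mul_one]
        · intro l _ hl
          have h4 : padicValNat (p i) (p l) = 0 := by
            apply padicValNat.eq_zero_of_not_dvd
            intro hd
            exact hl (hpi ((Nat.prime_dvd_prime_iff_eq (hp i) (hp l)).1 hd)).symm
          rw [padicValRat.zpow, padicValRat.of_nat, h4]
          simp
        · intro hi
          exact absurd (Finset.mem_univ i) hi
      rw [h2]
    have h1 := hφB i hi
    simp only [hlog] at h1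
    have h2 : ∑ j, φ j * (-(e i j : ℝ) * Real.log (p i)) =
        -(Real.log (p i) * ∑ j, φ j * (e i j : ℝ)) := by
      rw [Finset.mul_sum, ← Finset.sum_neg_distrib]
      refine Finset.sum_congr rfl fun j _ => ?_
      ring
    rw [h2, abs_neg, abs_mul] at h1
    have h3 : 0 < Real.log 2 := Real.log_pos one_lt_two
    rw [le_div_iff₀ h3, mul_comm]
    refine le_trans ?_ h1
    exact mul_le_mul_of_nonneg_right ((hlogp i).trans (le_abs_self _)) (abs_nonneg _)
  -- the projection of `A`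
  obtain ⟨hprime, I₀, hdimI, hI₀⟩ := proj A hA
  obtain ⟨I, hII₀, hId, hIc⟩ : ∃ I ⊆ I₀, I.card ≤ d + 1 ∧ (I = I₀ ∨ I.card = d + 1) := by
    by_cases h : I₀.card ≤ d + 1
    · exact ⟨I₀, subset_rfl, h, Or.inl rfl⟩
    · obtain ⟨I, hI, hIc⟩ := Finset.exists_subset_card_eq (not_le.1 h).le
      exact ⟨I, hI, hIc.le, Or.inr hIc⟩
  obtain ⟨a, ha⟩ := exists_nat_dim A
  obtain ⟨a', ha'⟩ := exists_nat_dim (prX '' A)
  have hdim' : ((d + 1 - I.card : ℕ) : Cardinal) ≤
      dim (prX '' A) + (Module.finrank ℤ M : Cardinal) := by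
    rw [ha, ha'] at hdimI
    rw [ha] at hcon
    rw [ha']
    have h1 : a ≤ a' + I₀.card := by exact_mod_cast hdimI
    have h2 : d < a + Module.finrank ℤ M := by exact_mod_cast hcon
    have h3 : d + 1 - I.card ≤ a' + Module.finrank ℤ M := by
      rcases hIc with rfl | h
      · omega
      · omega
    exact_mod_cast h3
  -- the relations
  have hrel : ∀ J : {J : Finset (Fin k) // J.card = d + 1 - I.card},
      ∃ f : MvPolynomial (Fin k) ℂ, f ≠ 0 ∧ f.support ⊆ SS I hId J ∧
        (∀ i, err (v i) f ≤ ε) ∧ ∀ y ∈ prX '' A, eval (fun j => (g j)⁻¹ * y j) f = 0 := by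
    intro J
    obtain ⟨F, hF, hF0, hFV⟩ := hV (un I J.1) (hun I J.1 hId J.2) P
    set F' := map (eval (z P)) F with hF'
    set G : MvPolynomial (Fin r ⊕ Fin k) ℂ := rename Subtype.val F' with hG
    have hG0 : G ≠ 0 := fun h => hF0 (rename_injective _ Subtype.val_injective
      (by rw [map_zero]; exact h))
    have hGs : ∀ m ∈ G.support, ∃ m' ∈ F.support, m = m'.mapDomain Subtype.val := by
      intro m hm
      obtain ⟨m', hm', h⟩ := supp_rename' _ Subtype.val_injective F' m hm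
      exact ⟨m', support_map_subset _ _ hm', h⟩
    set T := expoW (un I J.1) F with hT
    have hGT : ∀ m ∈ G.support, (sp m).1 ∈ T := by
      intro m hm
      obtain ⟨m', hm', rfl⟩ := hGs m hm
      exact Finset.mem_image_of_mem _ hm'
    have hTI : ∀ α ∈ T, ∀ i, i ∉ I₀ → α i = 0 := by
      intro α hα i hi
      obtain ⟨m, -, rfl⟩ := Finset.mem_image.1 hα
      refine mapDomain_notMem _ m (Sum.inl i) ?_
      rw [un, Finset.inl_mem_disjSum]
      exact fun h => hi (hII₀ h)
    obtain ⟨α, hα, hα0⟩ := exists_cof_ne_zero hG0 T hGT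
    have hsupp : (cof α G).support ⊆ SS I hId J := by
      intro β hβ
      obtain ⟨m', hm', h⟩ := hGs _ (support_cof α G β hβ)
      refine Finset.mem_biUnion.2 ⟨F, hF, Finset.mem_image.2 ⟨m', hm', ?_⟩⟩
      rw [← h, Equiv.apply_symm_apply]
    refine ⟨cof α G, hα0, hsupp, fun i => ?_, ?_⟩
    · have h1 : ∀ β ∈ (cof α G).support, |Real.log (v i (coeff β (cof α G)))| ≤ B₂ := by
        intro β hβ
        obtain ⟨m', hm', h⟩ := hGs _ (support_cof α G β hβ)
        have h2 : coeff β (cof α G) = eval (z P) (coeff m' F) := by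
          rw [coeff_cof, h, hG, coeff_rename_mapDomain _ Subtype.val_injective, hF', coeff_map]
        rw [h2]
        refine hvc i _ ?_ ?_
        · exact Finset.mem_biUnion.2 ⟨⟨un I J.1, hun I J.1 hId J.2⟩, Finset.mem_univ _,
            Finset.mem_biUnion.2 ⟨F, hF, Finset.mem_image_of_mem _ hm'⟩⟩
        · rw [← h2]
          exact mem_support_iff.1 hβ
      have h2 : (cof α G).support.card ≤ nS := by
        have h3 : (cof α G).support.card ≤ (SS I hId J).card := Finset.card_le_card hsupp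
        have h4 : (SS I hId J).card ≤ ∑ J, (SS I hId J).card :=
          Finset.single_le_sum (f := fun J => (SS I hId J).card) (fun _ _ => Nat.zero_le _)
            (Finset.mem_univ J)
        have h5 : (if hI : I.card ≤ d + 1 then ∑ J, (SS I hI J).card else 0) ≤ nS :=
          Finset.single_le_sum (f := fun I : Finset (Fin r) => if hI : I.card ≤ d + 1 then
            ∑ J, (SS I hI J).card else 0) (fun _ _ => Nat.zero_le _) (Finset.mem_univ I)
        rw [dif_pos hId] at h5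
        omega
      have h3 : ((cof α G).support.card : ℝ) ≤ nS := by exact_mod_cast h2
      rw [err]
      refine add_le_add ?_ ?_
      · calc ∑ β ∈ (cof α G).support, |Real.log (v i (coeff β (cof α G)))| ≤
              ∑ _β ∈ (cof α G).support, B₂ := Finset.sum_le_sum h1
          _ = ((cof α G).support.card : ℝ) * B₂ := by rw [Finset.sum_const, nsmul_eq_mul]
          _ ≤ nS * B₂ := mul_le_mul_of_nonneg_right h3 hB₂
      · rcases Nat.eq_zero_or_pos (cof α G).support.card with h4 | h4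
        · rw [h4, Nat.cast_zero, Real.log_zero]
          exact Real.log_nonneg (by linarith [(Nat.cast_nonneg nS : (0 : ℝ) ≤ nS)])
        · exact Real.log_le_log (by exact_mod_cast h4) (by linarith)
    · intro y hy
      have h1 := hI₀ T hTI (fun α => scl (fun j => (g j)⁻¹) (cof α G)) ?_ α hα y hy
      · rwa [eval_scl] at h1
      · intro y hy
        have h2 := eval_cof G (prW y) (fun j => (g j)⁻¹ * prX y j) T hGT
        have h3 : eval (Sum.elim (prW y) (fun j => (g j)⁻¹ * prX y j)) G = 0 := by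
          rw [hG, eval_rename]
          exact hFV _ _ (hAV y hy)
        rw [h3] at h2
        rw [h2]
        refine Finset.sum_congr rfl fun α _ => ?_
        rw [eval_scl]
  choose f hf0 hfS hfε hfA using hrel
  obtain ⟨T, hT, φ, hφ, hφB⟩ := hB' I hId v f hf0 hfS (fun i J => hfε J i) g hg M η
    (fun j => (hη j).1) hvη (prX '' A) hAη hfA hprime hdim'
  exact ⟨T, hT, φ, hφ, fun i hi => (hφB i hi).trans (hB''I I hId)⟩

end Pool.Agent.Y237.HT
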