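import Pool.Agent.Y237.HT.Dyn

/-!
# The Nullstellensatz certificate and the heights of preperiodic points

Helper file.
-/

set_option autoImplicit false

namespace Pool.Agent.Y237.HT

open MvPolynomial

theorem lift_alg {σ : Type} (g : MvPolynomial σ ℂ) (hg : ∀ m, IsAlgebraic ℚ (g.coeff m)) :
    ∃ g' : MvPolynomial σ (algebraicClosure ℚ ℂ), map (algebraMap _ ℂ) g' = g := by
  have h1 : g ∈ Set.range (map (σ := σ) (algebraMap (algebraicClosure ℚ ℂ) ℂ)) := by
    rw [mem_range_map_iff_coeffs_subset]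
    intro c hc
    obtain ⟨m, -, rfl⟩ := mem_coeffs_iff.1 hc
    exact ⟨⟨g.coeff m, mem_algebraicClosure_iff.2 (hg m)⟩, rfl⟩
  exact h1

theorem homogeneousComponent_mul' {σ R : Type} [CommRing R] {a : ℕ} {l : MvPolynomial σ R}
    (hl : l.IsHomogeneous a) (k : ℕ) (q : MvPolynomial σ R) :
    homogeneousComponent (a + k) (l * q) = l * homogeneousComponent k q := by
  conv_lhs => rw [← sum_homogeneousComponent q, Finset.mul_sum, map_sum]
  have h1 : ∀ i, homogeneousComponent (a + k) (l * homogeneousComponent i q) =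
      if i = k then l * homogeneousComponent k q else 0 := by
    intro i
    rw [homogeneousComponent_of_mem (hl.mul (homogeneousComponent_isHomogeneous i q))]
    by_cases h : i = k
    · rw [if_pos (by rw [h]), if_pos h, h]
    · rw [if_neg (by omega), if_neg h]
  simp_rw [h1]
  rw [Finset.sum_ite_eq']
  split_ifs with h
  · rfl
  · rw [Finset.mem_range] at h
    rw [homogeneousComponent_eq_zero _ _ (by omega), mul_zero]

theorem homogeneousComponent_mul_lt {σ R : Type} [CommRing R] {a : ℕ} {l : MvPolynomial σ R}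
    (hl : l.IsHomogeneous a) (m : ℕ) (hm : m < a) (q : MvPolynomial σ R) :
    homogeneousComponent m (l * q) = 0 := by
  conv_lhs => rw [← sum_homogeneousComponent q, Finset.mul_sum, map_sum]
  refine Finset.sum_eq_zero fun i _ => ?_
  rw [homogeneousComponent_of_mem (hl.mul (homogeneousComponent_isHomogeneous i q)),
    if_neg (by omega)]

/-- The components of the elements of an ideal generated by forms vanish on the zero set. -/
theorem comp_vanish {σ R : Type} [CommRing R] [Algebra R ℂ] (G : Set (MvPolynomial σ R))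
    (hG : ∀ g ∈ G, ∃ D, g.IsHomogeneous D) (z : σ → ℂ) (hz : ∀ g ∈ G, aeval z g = 0)
    (w : MvPolynomial σ R) (hw : w ∈ Ideal.span G) (m : ℕ) :
    aeval z (homogeneousComponent m w) = 0 := by
  have h : ∀ (a : MvPolynomial σ R) (m : ℕ), aeval z (homogeneousComponent m (w * a)) = 0 := by
    refine Submodule.span_induction
      (p := fun w _ => ∀ (a : MvPolynomial σ R) (m : ℕ),
        aeval z (homogeneousComponent m (w * a)) = 0) ?_ ?_ ?_ ?_ hw
    · intro g hg a m
      obtain ⟨D, hD⟩ := hG g hg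
      rcases lt_or_ge m D with h | h
      · rw [homogeneousComponent_mul_lt hD m h, map_zero]
      · obtain ⟨k, rfl⟩ := Nat.exists_eq_add_of_le h
        rw [homogeneousComponent_mul' hD, map_mul, hz g hg, zero_mul]
    · intro a m
      rw [zero_mul, map_zero, map_zero]
    · intro x y _ _ hx hy a m
      rw [add_mul, map_add, map_add, hx, hy, add_zero]
    · intro b x _ hx a m
      rw [smul_eq_mul, mul_comm b x, mul_assoc]
      exact hx _ m
  have := h 1 m
  rwa [mul_one] at this

/-- **The certificate.** -/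
theorem exists_cert {ι : Type} [Fintype ι] [DecidableEq ι] {q : ℕ} (f : ι → MvPolynomial ι ℂ)
    (hf : ∀ j, (f j).IsHomogeneous q) (hfa : ∀ j m, IsAlgebraic ℚ ((f j).coeff m))
    (G : Set (MvPolynomial ι ℂ)) (hG : ∀ g ∈ G, ∃ D, g.IsHomogeneous D)
    (hGa : ∀ g ∈ G, ∀ m, IsAlgebraic ℚ (g.coeff m))
    (hnz : ∀ z : ι → ℂ, (∀ g ∈ G, eval z g = 0) → (∀ j, eval z (f j) = 0) → z = 0) :
    ∃ (M : ℕ) (Q : ι × ι → MvPolynomial ι ℂ), (∀ a, (Q a).IsHomogeneous M) ∧
      (∀ a m, IsAlgebraic ℚ ((Q a).coeff m)) ∧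
      ∀ z : ι → ℂ, (∀ g ∈ G, eval z g = 0) → ∀ k,
        ∑ j, eval z (Q (k, j)) * eval z (f j) = z k ^ (M + q) := by
  let 𝔸 := algebraicClosure ℚ ℂ
  choose f' hf' using fun j => lift_alg (f j) (hfa j)
  have hinj : Function.Injective (map (σ := ι) (algebraMap 𝔸 ℂ)) :=
    map_injective _ (algebraMap 𝔸 ℂ).injective
  let G' : Set (MvPolynomial ι 𝔸) := {g | map (algebraMap 𝔸 ℂ) g ∈ G}
  have hf'h : ∀ j, (f' j).IsHomogeneous q := fun j => by
    have h1 := hf j
    rw [← hf' j] at h1
    exact h1.of_map (algebraMap 𝔸 ℂ).injective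
  have hG'h : ∀ g ∈ G', ∃ D, g.IsHomogeneous D := fun g hg => by
    obtain ⟨D, hD⟩ := hG _ hg
    exact ⟨D, hD.of_map (algebraMap 𝔸 ℂ).injective⟩
  have hev : ∀ (z : ι → ℂ) (g : MvPolynomial ι 𝔸), aeval z g = eval z (map (algebraMap 𝔸 ℂ) g) := by
    intro z g
    rw [eval_map, aeval_def]
  let I : Ideal (MvPolynomial ι 𝔸) := Ideal.span (Set.range f') ⊔ Ideal.span G'
  have hzero : ∀ z ∈ zeroLocus ℂ I, z = 0 := by
    intro z hz
    refine hnz z ?_ ?_
    · intro g hg
      obtain ⟨g', rfl⟩ := lift_alg g (hGa g hg)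
      rw [← hev]
      exact hz g' (Ideal.mem_sup_right (Ideal.subset_span hg))
    · intro j
      rw [← hf' j, ← hev]
      exact hz (f' j) (Ideal.mem_sup_left (Ideal.subset_span ⟨j, rfl⟩))
  have hX : ∀ k : ι, (X k : MvPolynomial ι 𝔸) ∈ I.radical := by
    intro k
    rw [← vanishingIdeal_zeroLocus_eq_radical (K := ℂ), mem_vanishingIdeal_iff]
    intro z hz
    rw [hzero z hz, aeval_X]
    rfl
  choose e he using fun k => Ideal.mem_radical_iff.1 (hX k)
  set M := ∑ k, e k with hM
  have hXe : ∀ k : ι, (X k : MvPolynomial ι 𝔸) ^ (M + q) ∈ I := by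
    intro k
    have h1 : e k ≤ M := Finset.single_le_sum (f := e) (fun _ _ => Nat.zero_le _)
      (Finset.mem_univ k)
    obtain ⟨r, hr⟩ := Nat.exists_eq_add_of_le (le_trans h1 (Nat.le_add_right M q))
    rw [hr, pow_add]
    exact Ideal.mul_mem_right _ _ (he k)
  have h2 : ∀ k, ∃ (a : ι → MvPolynomial ι 𝔸), ∃ w ∈ Ideal.span G',
      ∑ j, a j * f' j + w = X k ^ (M + q) := by
    intro k
    obtain ⟨u, hu, w, hw, huw⟩ := Submodule.mem_sup.1 (hXe k)
    obtain ⟨a, ha⟩ := Ideal.mem_span_range_iff_exists_fun.1 hu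
    exact ⟨a, w, hw, by rw [ha, huw]⟩
  choose a w hw ha using h2
  refine ⟨M, fun b => map (algebraMap 𝔸 ℂ) (homogeneousComponent M (a b.1 b.2)), ?_, ?_, ?_⟩
  · intro b
    exact (homogeneousComponent_isHomogeneous _ _).map _
  · intro b m
    rw [coeff_map]
    exact mem_algebraicClosure_iff.1 (coeff m (homogeneousComponent M (a b.1 b.2))).2
  · intro z hz k
    have h3 := congrArg (fun p => aeval z (homogeneousComponent (q + M) p)) (ha k)
    simp only [map_add, map_sum] at h3
    have h4 : aeval z (homogeneousComponent (q + M) (w k)) = 0 :=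
      comp_vanish G' hG'h z (fun g hg => by rw [hev]; exact hz _ hg) _ (hw k) _
    have h5 : homogeneousComponent (q + M) (X k ^ (M + q) : MvPolynomial ι 𝔸) = X k ^ (M + q) := by
      rw [homogeneousComponent_of_mem ((isHomogeneous_X 𝔸 k).pow (M + q)), if_pos (by ring)]
    rw [h4, add_zero, h5, map_pow, aeval_X] at h3
    rw [← h3]
    refine Finset.sum_congr rfl fun j _ => ?_
    rw [mul_comm (a k j), homogeneousComponent_mul' (hf'h j), map_mul, hev, hev, hf', mul_comm]

end Pool.Agent.Y237.HT
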