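import Pool.Agent.Y237.HT.Core

/-!
# Projection of an irreducible subset of `ℂ^r × G_m^k` to the torus

Helper file.
-/

set_option autoImplicit false

namespace Pool.Agent.Y237.HT

open MvPolynomial
open Pool.Agent.Results.MP_b7926e_nt.NoAtypical (coset idealOf dim mem_idealOf)

variable {r k : ℕ}

/-- the torus coordinates -/
def prX (y : Fin (r + k) → ℂ) : Fin k → ℂ := fun j => y (Fin.natAdd r j)

/-- the other coordinates -/
def prW (y : Fin (r + k) → ℂ) : Fin r → ℂ := fun i => y (Fin.castAdd k i)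

/-- **Projection to the torus.** -/
theorem proj (A : Set (Fin (r + k) → ℂ)) (hA : (idealOf A).IsPrime) :
    (idealOf (prX '' A)).IsPrime ∧ ∃ I : Finset (Fin r), dim A ≤ dim (prX '' A) + I.card ∧
      ∀ (T : Finset (Fin r →₀ ℕ)), (∀ α ∈ T, ∀ i, i ∉ I → α i = 0) →
        ∀ c : (Fin r →₀ ℕ) → MvPolynomial (Fin k) ℂ,
        (∀ y ∈ A, ∑ α ∈ T, eval (prX y) (c α) * ∏ i, prW y i ^ α i = 0) →
          ∀ α ∈ T, ∀ y ∈ prX '' A, eval y (c α) = 0 := by
  classical
  set Q := idealOf A with hQ
  let R := MvPolynomial (Fin (r + k)) ℂ ⧸ Q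
  let ψ : MvPolynomial (Fin k) ℂ →ₐ[ℂ] R :=
    (Ideal.Quotient.mkₐ ℂ Q).comp (rename (Fin.natAdd r))
  have hQ' : idealOf (prX '' A) =
      Q.comap (rename (Fin.natAdd r) : MvPolynomial (Fin k) ℂ →ₐ[ℂ] _).toRingHom := by
    ext f
    rw [mem_idealOf, Ideal.mem_comap, hQ, mem_idealOf]
    constructor
    · intro h x hx
      have h1 := h _ ⟨x, hx, rfl⟩
      change eval x (rename (Fin.natAdd r) f) = 0
      rw [eval_rename]
      exact h1
    · rintro h _ ⟨x, hx, rfl⟩
      have h1 := h x hx
      change eval x (rename (Fin.natAdd r) f) = 0 at h1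
      rw [eval_rename] at h1
      exact h1
  have hψ : ∀ f, ψ f = 0 ↔ f ∈ idealOf (prX '' A) := by
    intro f
    rw [hQ']
    change Ideal.Quotient.mk Q (rename (Fin.natAdd r) f) = 0 ↔ _
    rw [Ideal.Quotient.eq_zero_iff_mem]
    rfl
  have hprime : (idealOf (prX '' A)).IsPrime := by
    rw [hQ']
    exact Ideal.comap_isPrime _ _
  refine ⟨hprime, ?_⟩
  let S : Subalgebra ℂ R := ψ.range
  let w : Fin r → R := fun i => Ideal.Quotient.mk Q (X (Fin.castAdd k i))
  -- the ring is generated by the `w`
  have htop : Algebra.adjoin S (Set.range w) = ⊤ := by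
    rw [eq_top_iff]
    rintro y -
    obtain ⟨f, rfl⟩ := Ideal.Quotient.mk_surjective y
    induction f using MvPolynomial.induction_on with
    | C a =>
      have h1 : Ideal.Quotient.mk Q (C a) = algebraMap S R (algebraMap ℂ S a) := rfl
      rw [h1]
      exact Subalgebra.algebraMap_mem _ _
    | add p q hp hq =>
      rw [map_add]
      exact add_mem hp hq
    | mul_X p i hp =>
      rw [map_mul]
      refine mul_mem hp ?_
      refine Fin.addCases (fun i => ?_) (fun j => ?_) i
      · exact Algebra.subset_adjoin ⟨i, rfl⟩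
      · have h1 : Ideal.Quotient.mk Q (X (Fin.natAdd r j)) =
            algebraMap S R ⟨ψ (X j), ⟨X j, rfl⟩⟩ := by
          change _ = ψ (X j)
          change _ = Ideal.Quotient.mk Q (rename (Fin.natAdd r) (X j))
          rw [rename_X]
        rw [h1]
        exact Subalgebra.algebraMap_mem _ _
  have halg : Algebra.IsAlgebraic (Algebra.adjoin S (Set.range w)) R := by
    refine ⟨fun y => ?_⟩
    have h1 : y ∈ Algebra.adjoin S (Set.range w) := by
      rw [htop]
      exact Algebra.mem_top
    exact isAlgebraic_algebraMap (⟨y, h1⟩ : Algebra.adjoin S (Set.range w))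
  obtain ⟨u, huw, hu⟩ := exists_isTranscendenceBasis_subset (R := S) (Set.range w)
  have hc : ∀ e : u, ∃ i, w i = e := fun e => huw e.2
  choose c hc using hc
  have hcinj : Function.Injective c := fun e e' h => Subtype.ext (by rw [← hc e, ← hc e', h])
  have hufin : Finite u := Finite.of_injective c hcinj
  have : Fintype u := Fintype.ofFinite u
  set I : Finset (Fin r) := Finset.univ.image c with hI
  have hIcard : I.card = Fintype.card u := by
    rw [hI, Finset.card_image_of_injective _ hcinj, Finset.card_univ]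
  have hwI : ∀ i ∈ I, ∃ e : u, c e = i := by
    intro i hi
    obtain ⟨e, -, he⟩ := Finset.mem_image.1 hi
    exact ⟨e, he⟩
  refine ⟨I, ?_, ?_⟩
  · have hf1 : FaithfulSMul ℂ S :=
      (faithfulSMul_iff_algebraMap_injective ℂ S).2 (algebraMap ℂ S).injective
    have hf2 : FaithfulSMul S R :=
      (faithfulSMul_iff_algebraMap_injective S R).2 Subtype.val_injective
    have h1 : Algebra.trdeg ℂ S + Algebra.trdeg S R = Algebra.trdeg ℂ R := trdeg_add_eq ℂ S (A := R)
    have h2 : Algebra.trdeg S R = I.card := by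
      rw [← hu.cardinalMk_eq_trdeg, hIcard, Cardinal.mk_fintype]
    have h3 : Algebra.trdeg ℂ S ≤ dim (prX '' A) := by
      let φ : (MvPolynomial (Fin k) ℂ ⧸ idealOf (prX '' A)) →ₐ[ℂ] S :=
        Ideal.Quotient.liftₐ _ ψ.rangeRestrict (fun f hf => Subtype.ext ((hψ f).2 hf))
      refine trdeg_le_of_surjective φ ?_
      rintro ⟨_, ⟨f, rfl⟩⟩
      exact ⟨Ideal.Quotient.mk _ f, rfl⟩
    change Algebra.trdeg ℂ R ≤ _
    rw [← h1, h2]
    exact add_le_add_left h3 _
  · intro T hT cc hcc α hα y hy
    -- the coordinates with indices in `I` are independent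
    let e : u ≃ I := Equiv.ofBijective (fun a => ⟨c a, Finset.mem_image_of_mem c (Finset.mem_univ a)⟩)
      ⟨fun a a' h => hcinj (congrArg Subtype.val h), fun i => by
        obtain ⟨a, ha⟩ := hwI i i.2
        exact ⟨a, Subtype.ext ha⟩⟩
    have hind : AlgebraicIndependent S (fun i : I => w i) := by
      have h1 : (fun i : I => w i) ∘ e = ((↑) : u → R) := by
        funext a
        exact hc a
      rw [← algebraicIndependent_equiv e, h1]
      exact hu.1
    let sd : (Fin r →₀ ℕ) → (I →₀ ℕ) := fun α => Finsupp.subtypeDomain (fun i => i ∈ I) α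
    let H : MvPolynomial I S := ∑ α ∈ T, monomial (sd α) (⟨ψ (cc α), ⟨cc α, rfl⟩⟩ : S)
    have hprod : ∀ α ∈ T, ∏ i, w i ^ α i = ∏ i : I, w i ^ (sd α) i := by
      intro α hα
      rw [← Finset.prod_subset (Finset.subset_univ I)
        (fun i _ hi => by rw [hT α hα i hi, pow_zero]), ← Finset.prod_coe_sort I]
      rfl
    have hH0 : aeval (fun i : I => w i) H = 0 := by
      rw [map_sum]
      have h1 : ∀ α ∈ T, aeval (fun i : I => w i) (monomial (sd α)
          (⟨ψ (cc α), ⟨cc α, rfl⟩⟩ : S)) =
          Ideal.Quotient.mk Q (rename (Fin.natAdd r) (cc α) *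
            ∏ i, X (Fin.castAdd k i) ^ α i) := by
        intro α hα
        rw [aeval_monomial, map_mul, map_prod, Finsupp.prod_fintype _ _ (fun _ => pow_zero _)]
        simp only [map_pow]
        rw [hprod α hα]
        rfl
      rw [Finset.sum_congr rfl h1, ← map_sum, Ideal.Quotient.eq_zero_iff_mem, hQ, mem_idealOf]
      intro x hx
      rw [map_sum, ← hcc x hx]
      refine Finset.sum_congr rfl fun α _ => ?_
      rw [map_mul, eval_rename, map_prod]
      simp only [map_pow, eval_X]
      rfl
    have hH : H = 0 := hind (by rw [hH0, map_zero])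
    have hinj : ∀ α ∈ T, ∀ α' ∈ T, sd α = sd α' → α = α' := by
      intro α hα α' hα' h
      ext i
      by_cases hi : i ∈ I
      · exact DFunLike.congr_fun h (⟨i, hi⟩ : I)
      · rw [hT α hα i hi, hT α' hα' i hi]
    have h2 : coeff (sd α) H = (⟨ψ (cc α), ⟨cc α, rfl⟩⟩ : S) := by
      rw [coeff_sum, Finset.sum_eq_single α]
      · rw [coeff_monomial, if_pos rfl]
      · intro α' hα' hne
        rw [coeff_monomial, if_neg]
        exact fun h => hne (hinj α' hα' α hα h)
      · intro h
        exact absurd hα h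
    rw [hH, coeff_zero] at h2
    have h3 : ψ (cc α) = 0 := (congrArg (fun s : S => (s : R)) h2).symm
    exact mem_idealOf.1 ((hψ _).1 h3) y hy

end Pool.Agent.Y237.HT
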